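import Pool.Agent.H21.HV.Defs

/-!
# Project HW: the Havet-Yu conjecture for all graphs, `ε D ≤ p ≤ (1/2 - ε) D`, `D` large

See `Pool/Agent/H39/HW/NOTES.md` for the paper proof.  `nb`, `Prp`, `TotLab` are those of
`Pool/Agent/H21/HV/Defs.lean`.
-/

set_option autoImplicit false
open Classical Finset

namespace Pool.Agent.H39.HW

open Pool.Agent.H21.HV (nb Prp TotLab)

/-- the cyclic sum -/
def sm (B a b : ℕ) : ℕ := if a + b < B then a + b else a + b - B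

/-- the labels of the block `β` and those of the block `a` have distance at least `p` -/
def Av (st : ℕ → ℕ) (p a β : ℕ) : Prop :=
  st (a + 1) + p ≤ st β + 1 ∨ st (β + 1) + p ≤ st a + 1

/-- the number of labels of the block `β` -/
def ln (st : ℕ → ℕ) (β : ℕ) : ℕ := st (β + 1) - st β

/-- the labels of the block `β` -/
def blk (st : ℕ → ℕ) (β : ℕ) : Finset ℕ := Finset.Ico (st β) (st (β + 1))

/-- the labels of a set of blocks -/
def lab (st : ℕ → ℕ) (T : Finset ℕ) : Finset ℕ := T.biUnion (blk st)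

/-- the data of a scheme -/
structure Dat where
  /-- number of blocks -/
  B : ℕ
  /-- `K` consecutive blocks have at least `p` labels -/
  K : ℕ
  /-- the rows: the blocks `a` which are used for the labels of the vertices of an ordinary cell -/
  R : Finset ℕ
  /-- number of special cells -/
  m : ℕ
  /-- number of parts of the set of the special cells -/
  H : ℕ
  /-- the block `β` consists of the labels `st β ≤ n < st (β + 1)` -/
  st : ℕ → ℕ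
  /-- the type of a part: `true` if the vertices get labels `< ξ`, `false` if they get labels
  `≥ N - ξ` -/
  ty : ℕ → Bool
  /-- the part of a special cell -/
  part : ℕ → ℕ
  /-- the special cell `y` serves the row `a` with the block `φ y a` -/
  φ : ℕ → ℕ → ℕ
  /-- the blocks reserved for the edges between the row `a` and the part `P` which are left over -/
  S : ℕ → ℕ → Finset ℕ
  /-- the blocks not used for the service in the part `P` -/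
  F : ℕ → Finset ℕ
  /-- the blocks for the edges between the special vertices of the parts `P` and `Q` -/
  Φ : ℕ → ℕ → Finset ℕ
  /-- the hub of the row `a` -/
  Hb : ℕ → Finset ℕ
  /-- length of the windows of the special vertices -/
  ξ : ℕ
  /-- weight of a row -/
  μ : ℝ
  /-- weight of a special cell -/
  ω : ℝ
  /-- error of the weights -/
  δ : ℝ
  /-- smallest and largest ratio of the surplus -/
  ρ1 : ℝ
  ρ2 : ℝ
  /-- free weight for every label -/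
  ρ3 : ℝ
  /-- error in the parts -/
  e1 : ℝ

namespace Dat

variable (s : Dat)

/-- the blocks used for the edges between the row `a` and the other rows -/
noncomputable def mm (a : ℕ) : Finset ℕ :=
  (s.R.erase a).image fun b => sm s.B a b

/-- the classes of the row `a` -/
noncomputable def cls (p a : ℕ) : Finset ℕ :=
  (((range s.B).filter fun β => Av s.st p a β).erase (sm s.B a a)) \
    (range s.H).biUnion fun P => s.S P a

/-- number of cells of the part `P` which serve the row `a` with the block `β` -/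
noncomputable def k (P a β : ℕ) : ℕ :=
  ((range s.m).filter fun y => s.part y = P ∧ s.φ y a = β).card

/-- number of cells which serve the row `a` with the block `β` -/
noncomputable def kt (a β : ℕ) : ℕ := ((range s.m).filter fun y => s.φ y a = β).card

/-- the demand of the class `β` of the row `a` -/
noncomputable def dem (D : ℕ) (a β : ℕ) : ℝ :=
  (ln s.st β : ℝ) / D - (if β ∈ s.mm a then s.μ else 0)

/-- the surplus of the class `β` of the row `a` -/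
noncomputable def lo (D : ℕ) (a β : ℕ) : ℝ := s.ω * s.kt a β - s.dem D a β

/-- the block `β` is allowed for the type `τ` -/
def Al (D p : ℕ) (τ : Bool) (β : ℕ) : Prop :=
  if τ then p + s.ξ ≤ s.st β else s.st (β + 1) + p + s.ξ ≤ D + 2 * p

end Dat

/-- `s` is a scheme for `D` and `p` -/
structure Sch (D p : ℕ) (s : Dat) : Prop where
  hp : 1 ≤ p
  hK : 2 * s.K + 2 ≤ s.B
  hR : ∀ a ∈ s.R, s.K + 1 ≤ a ∧ a + s.K + 1 ≤ s.B
  hH : 1 ≤ s.H
  hm : 1 ≤ s.m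
  st0 : s.st 0 = 0
  stB : s.st s.B = D + 2 * p
  stm : ∀ β, s.st β ≤ s.st (β + 1)
  /-- `K` consecutive blocks have at least `p` labels -/
  KB : ∀ i, i + s.K ≤ s.B → s.st i + p ≤ s.st (i + s.K)
  /-- sizes of the blocks -/
  lnl : ∀ β < s.B, (s.μ + 2 * s.δ) * D + 2 ≤ ln s.st β
  lnu : ∀ β < s.B, (ln s.st β : ℝ) ≤ 3 * s.μ * D
  /-- weights -/
  dpos : 0 < s.δ
  opos : s.ω ≤ s.μ
  rho1 : 0 < s.ρ1
  rho12 : s.ρ1 ≤ s.ρ2
  rho2 : s.ρ2 ≤ 1 / 16
  small : 10 ^ 4 * (s.m + 2) * (s.B + 2) * (s.H + 2) * s.δ ≤ s.ρ1 * s.ω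
  tot : s.R.card * s.μ + s.m * s.ω = 1
  /-- windows of the special vertices -/
  xi1 : (s.m : ℝ) * (s.ω + s.δ) * D + 2 ≤ s.ξ
  xi2 : s.ξ ≤ p
  xi3 : 2 * s.ξ ≤ D
  /-- the service -/
  prt : ∀ y < s.m, s.part y < s.H
  ph1 : ∀ y < s.m, ∀ a ∈ s.R, s.φ y a ∈ s.cls p a
  ph2 : ∀ y < s.m, ∀ a ∈ s.R, ∀ b ∈ s.R, s.φ y a = s.φ y b → a = b
  ph3 : ∀ y < s.m, ∀ a ∈ s.R, s.Al D p (s.ty (s.part y)) (s.φ y a)
  ph4 : ∀ y < s.m, ∀ a ∈ s.R, s.φ y a ∉ s.F (s.part y)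
  /-- reserved blocks -/
  S1 : ∀ P < s.H, ∀ a ∈ s.R, ∀ β ∈ s.S P a,
    β < s.B ∧ Av s.st p a β ∧ β ∉ s.mm a ∧ β ≠ sm s.B a a ∧ s.Al D p (s.ty P) β ∧ β ∈ s.F P
  S2 : ∀ P < s.H, ∀ Q < s.H, P ≠ Q → ∀ a ∈ s.R, Disjoint (s.S P a) (s.S Q a)
  S3 : ∀ P < s.H, ∀ a ∈ s.R, ∀ b ∈ s.R,
    s.S P a = s.S P b ∨ Disjoint (s.S P a) (s.S P b)
  S4 : ∀ P < s.H, ∀ a ∈ s.R,
    ((s.R.filter fun b => s.S P b = s.S P a).card : ℝ) * (16 * s.ρ2 * s.μ) * D ≤
      (lab s.st (s.S P a)).card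
  /-- blocks for the edges inside the set of the special vertices -/
  Ph1 : ∀ P < s.H, ∀ Q < s.H, s.Φ P Q = s.Φ Q P
  Ph2 : ∀ P < s.H, ∀ Q < s.H, ∀ β ∈ s.Φ P Q,
    β < s.B ∧ s.Al D p (s.ty P) β ∧ β ∈ s.F P ∧ ∀ a ∈ s.R, β ∉ s.S P a
  Ph3 : ∀ P < s.H, ∀ Q < s.H,
    2 * (s.m * (s.ω + s.δ)) * D + 2 ≤ (lab s.st (s.Φ P Q)).card
  /-- free cells for every block and every type -/
  fre : ∀ β < s.B, ∀ τ : Bool, s.ρ3 ≤ s.ω * ((range s.m).filter fun y =>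
    s.ty (s.part y) = τ ∧ β ∉ s.F (s.part y) ∧ ∀ a ∈ s.R, s.φ y a ≠ β).card
  rho3 : 1000 * s.μ ≤ s.ρ1 * s.ρ3
  /-- the surplus -/
  sur1 : ∀ a ∈ s.R, ∀ β ∈ s.cls p a, s.ρ1 * (s.ω * s.kt a β) ≤ s.lo D a β
  sur2 : ∀ a ∈ s.R, ∀ β ∈ s.cls p a, s.lo D a β ≤ s.ρ2 * (s.ω * s.kt a β)
  par : ∀ P < s.H, ∀ a ∈ s.R,
    |∑ β ∈ s.cls p a, s.lo D a β * (s.k P a β : ℝ) / s.kt a β -
      ((lab s.st (s.S P a)).card : ℝ) / D| ≤ s.e1
  hb1 : ∀ a ∈ s.R, s.Hb a ⊆ s.cls p a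
  hb2 : ∀ a ∈ s.R, ∀ β ∈ s.Hb a, ∀ P < s.H, s.kt a β ≤ 8 * s.H * s.k P a β
  hb3 : ∀ a ∈ s.R,
    32 * s.H * (s.e1 + 40 * s.μ) ≤ ∑ β ∈ s.Hb a, s.lo D a β

/-- the graph is regular of degree `D` -/
def Reg {V : Type} [Fintype V] (G : SimpleGraph V) (D : ℕ) : Prop := ∀ v, nb G univ v = D

/-! ### the two halves and the theorem -/

/-- graph side -/
def S_GRA : Prop :=
  ∀ (B0 m0 : ℕ) (δ : ℝ), 0 < δ → ∃ D0 : ℕ, ∀ D : ℕ, D0 ≤ D → ∀ (p : ℕ) (s : Dat), Sch D p s →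
    s.B ≤ B0 → s.m ≤ m0 → s.H ≤ m0 → s.δ = δ → ∀ (V : Type) [Fintype V] (G : SimpleGraph V),
      Reg G D → TotLab G p (D + 2 * p - 1)

/-- scheme side -/
def S_SCH : Prop :=
  ∀ ε : ℝ, 0 < ε → ∃ (B0 m0 : ℕ) (δ : ℝ), 0 < δ ∧ ∃ D0 : ℕ, ∀ D : ℕ, D0 ≤ D → ∀ p : ℕ,
    ε * D ≤ p → (p : ℝ) ≤ (1 / 2 - ε) * D →
      ∃ s : Dat, Sch D p s ∧ s.B ≤ B0 ∧ s.m ≤ m0 ∧ s.H ≤ m0 ∧ s.δ = δ

/-- the theorem -/
def S_FIN : Prop :=
  ∀ ε : ℝ, 0 < ε → ∃ D0 : ℕ, ∀ D : ℕ, D0 ≤ D → ∀ p : ℕ,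
    ε * D ≤ p → (p : ℝ) ≤ (1 / 2 - ε) * D → ∀ (V : Type) [Fintype V] (G : SimpleGraph V),
      (∀ v, nb G univ v ≤ D) → TotLab G p (D + 2 * p - 1)

end Pool.Agent.H39.HW
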