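import Pool.Agent.H39.HW.SStm

/-!
# Project HW, scheme side: basic facts which follow from `Par`
-/

set_option autoImplicit false
open Classical Finset

namespace Pool.Agent.H39.HW.Sc

open Pool.Agent.H39.HW

namespace Par

variable {x : Prm} (hx : Par x)

include hx

theorem Dpos : (0 : ℝ) < x.D := by
  have := hx.D1
  exact_mod_cast this

theorem hge : 10000 ≤ x.h := by
  have h1 := hx.h1
  have h2 := hx.e1
  have h3 := hx.e0
  have : (10000 : ℝ) ≤ x.h := by nlinarith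
  exact_mod_cast this

theorem Lge : 8 * 10 ^ 8 ≤ x.L := by
  have h1 := hx.hge
  rw [hx.L1]
  nlinarith

theorem p1 : 1 ≤ x.p := by
  have := hx.pK'
  omega

theorem cpos : 0 < x.c := lt_of_lt_of_le hx.e0 hx.c1

theorem c_lt : x.c < 1 / 2 := by
  have := hx.c2
  have := hx.e0
  linarith

theorem Kg : 8 * x.W + 8 * x.e + 8 + x.g ≤ x.K := by
  have := hx.W1
  have := hx.g1
  omega

theorem W1' : 1 ≤ x.W := by
  have h1 := hx.q1
  have h2 := hx.Lge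
  show 1 ≤ x.L * x.q
  have : 1 * 1 ≤ x.L * x.q := Nat.mul_le_mul (by omega) h1
  simpa using this

theorem b0_lt_b1 : x.b0 + 2 * x.K + 4 * x.J + 4 ≤ x.b1 := by
  have := hx.KM
  show x.K + x.J + 2 * x.K + 4 * x.J + 4 ≤ x.K + x.J + x.M
  omega

theorem b1_le_B : x.b1 + x.K + x.J = x.B := by
  show x.K + x.J + x.M + x.K + x.J = 2 * x.K + 2 * x.J + x.M
  omega

theorem mem_R {a : ℕ} : a ∈ x.R ↔ x.K + 1 ≤ a ∧ a + x.K + 1 ≤ x.B := by
  have h1 := hx.b1_le_B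
  have h2 := hx.J1
  unfold Prm.R
  rw [Finset.mem_Icc]
  omega

theorem etapos : 0 < x.η := hx.n0

theorem eta_le : x.η ≤ 1 / 100000 := by
  have h1 := hx.n1
  have h2 := hx.e1
  linarith

theorem tmpos : 0 < x.θ * x.μ := mul_pos hx.t0 hx.m0

theorem ls_ge : (1 + 39 / 100 * x.θ) * x.μ ≤ (x.w : ℝ) / x.D := by
  have h1 := abs_le.mp hx.s1
  have h2 := hx.eta_le
  have h3 := hx.tmpos
  have : x.η * x.θ * x.μ ≤ 1 / 100000 * (x.θ * x.μ) := by
    rw [mul_assoc]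
    exact mul_le_mul_of_nonneg_right h2 h3.le
  nlinarith [h1.1]

theorem ls_le : (x.w : ℝ) / x.D ≤ (1 + 41 / 100 * x.θ) * x.μ := by
  have h1 := abs_le.mp hx.s1
  have h2 := hx.eta_le
  have h3 := hx.tmpos
  have : x.η * x.θ * x.μ ≤ 1 / 100000 * (x.θ * x.μ) := by
    rw [mul_assoc]
    exact mul_le_mul_of_nonneg_right h2 h3.le
  nlinarith [h1.2]

theorem ll_ge : (1 + 99 / 100 * x.θ) * x.μ ≤ (x.v : ℝ) / x.D := by
  have h1 := abs_le.mp hx.s2
  have h2 := hx.eta_le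
  have h3 := hx.tmpos
  have : x.η * x.θ * x.μ ≤ 1 / 100000 * (x.θ * x.μ) := by
    rw [mul_assoc]
    exact mul_le_mul_of_nonneg_right h2 h3.le
  nlinarith [h1.1]

theorem ll_le : (x.v : ℝ) / x.D ≤ (1 + 101 / 100 * x.θ) * x.μ := by
  have h1 := abs_le.mp hx.s2
  have h2 := hx.eta_le
  have h3 := hx.tmpos
  have : x.η * x.θ * x.μ ≤ 1 / 100000 * (x.θ * x.μ) := by
    rw [mul_assoc]
    exact mul_le_mul_of_nonneg_right h2 h3.le
  nlinarith [h1.2]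

theorem th_le : x.θ ≤ 1 / 100000 := hx.th.trans hx.eta_le

theorem ls_le2 : (x.w : ℝ) / x.D ≤ 101 / 100 * x.μ := by
  have h1 := hx.ls_le
  have h2 := hx.th_le
  have h3 := hx.m0
  nlinarith

theorem ll_le2 : (x.v : ℝ) / x.D ≤ 101 / 100 * x.μ := by
  have h1 := hx.ll_le
  have h2 := hx.th_le
  have h3 := hx.m0
  nlinarith

theorem mu_le_ls : x.μ ≤ (x.w : ℝ) / x.D := by
  have h1 := hx.ls_ge
  have h3 := hx.tmpos
  nlinarith

theorem mu_le_ll : x.μ ≤ (x.v : ℝ) / x.D := by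
  have h1 := hx.ll_ge
  have h3 := hx.tmpos
  nlinarith

theorem invL : 1 / (x.L : ℝ) ≤ x.η := by
  have h1 := hx.Ln
  have h2 : (0 : ℝ) < x.L := by
    have := hx.Lge
    have : 0 < x.L := by omega
    exact_mod_cast this
  rw [div_le_iff₀ h2]
  exact h1

/-- `μ` is tiny -/
theorem mu_small : 10 ^ 9 * x.μ ≤ x.η * x.θ := by
  have h1 := hx.u1
  have h2 := hx.Lge
  have h3 : (8 * 10 ^ 8 : ℝ) ≤ x.L := by exact_mod_cast h2
  have h4 := hx.Ln
  have h5 := hx.n0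
  have h6 := hx.t0
  have h7 := hx.m0
  have h8 := hx.e1
  have h9 := hx.e0
  -- 10^9 μ ≤ 10^9 * (η L) * μ and L μ * 10^9 ≤ ε θ ≤ θ
  have a1 : 10 ^ 9 * x.μ * (x.L : ℝ) ≤ x.θ := by
    have b1 : (x.L : ℝ) ≤ (x.L : ℝ) ^ 4 := by
      have : (1 : ℝ) ≤ x.L := by linarith
      calc (x.L : ℝ) = (x.L : ℝ) ^ 1 := (pow_one _).symm
        _ ≤ (x.L : ℝ) ^ 4 := pow_le_pow_right₀ this (by norm_num)
    have b2 : 10 ^ 9 * x.μ * (x.L : ℝ) ≤ 10 ^ 9 * (x.L : ℝ) ^ 4 * x.μ := by nlinarith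
    have b3 : x.ε * x.θ ≤ x.θ := by nlinarith
    linarith
  have a2 : 10 ^ 9 * x.μ ≤ 10 ^ 9 * x.μ * (x.η * x.L) := by nlinarith
  have a3 : 10 ^ 9 * x.μ * (x.η * x.L) = x.η * (10 ^ 9 * x.μ * x.L) := by ring
  rw [a3] at a2
  exact a2.trans (mul_le_mul_of_nonneg_left a1 h5.le)

theorem q3' : 2 * x.h * x.q * ((x.v : ℝ) / x.D) ≤ x.η * x.θ / 60 := by
  have h1 := hx.q3
  have h2 := hx.invL
  have h3 := hx.t0
  have h4 : x.θ / (60 * x.L) = x.θ / 60 * (1 / x.L) := by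
    field_simp
  rw [h4] at h1
  have := mul_le_mul_of_nonneg_left h2 (by positivity : (0 : ℝ) ≤ x.θ / 60)
  linarith

/-- `(K - g) v / D` -/
theorem X_le : ((x.K : ℝ) - x.g) * (x.v / x.D) ≤ (3 / 5 * x.c + x.η) * x.θ := by
  have := (abs_le.mp hx.j2).2
  linarith

theorem X_ge : (3 / 5 * x.c - x.η) * x.θ ≤ ((x.K : ℝ) - x.g) * (x.v / x.D) := by
  have := (abs_le.mp hx.j2).1
  linarith

theorem Kg_le : ((x.K : ℝ) - x.g) * x.μ ≤ x.η := by
  have h1 := hx.X_le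
  have h2 := hx.mu_le_ll
  have h3 : (0 : ℝ) ≤ (x.K : ℝ) - x.g := by
    have : (x.g : ℝ) ≤ x.K := by exact_mod_cast hx.g1
    linarith
  have h4 := hx.c_lt
  have h5 := hx.cpos
  have h6 := hx.eta_le
  have h7 := hx.th
  have h8 := hx.n0
  have h9 := hx.t0
  have a1 := mul_le_mul_of_nonneg_left h2 h3
  have a2 : (3 / 5 * x.c + x.η) * x.θ ≤ 1 * x.θ := by
    apply mul_le_mul_of_nonneg_right _ h9.le
    linarith
  linarith

theorem Kmu : x.c - x.η ≤ x.K * x.μ ∧ x.K * x.μ ≤ x.c + x.η := by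
  have := abs_le.mp hx.k1
  constructor <;> linarith [this.1, this.2]

theorem Mmu : 1 - x.η ≤ x.M * x.μ ∧ x.M * x.μ ≤ 1 + x.η := by
  have := abs_le.mp hx.m1
  constructor <;> linarith [this.1, this.2]

theorem Jmu : 0 ≤ x.J * x.μ ∧ x.J * x.μ ≤ x.η :=
  ⟨mul_nonneg (Nat.cast_nonneg _) hx.m0.le, hx.j1⟩

/-- the extra labels of the last block are negligible -/
theorem Msmall : ((x.M : ℝ) + 1) / x.D ≤ x.η * x.θ * x.μ / 10 ^ 9 := by
  have h1 := hx.D2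
  have h2 := hx.Dpos
  have h3 : (x.M : ℝ) ≤ x.B := by
    have : x.M ≤ x.B := by
      show x.M ≤ 2 * x.K + 2 * x.J + x.M
      omega
    exact_mod_cast this
  rw [div_le_iff₀ h2]
  linarith

/-- the total demand, from TOT -/
theorem Dt_bounds (hT : S_TOT) {a : ℕ} (ha : a ∈ x.R) :
    (1 - x.η) * x.θ ≤ x.Dt a ∧ x.Dt a ≤ x.θ := by
  have h1 := abs_le.mp (hT x hx a ha)
  have h2 := hx.q3'
  have h3 := hx.mu_small
  have h4 : 0 < x.η * x.θ := mul_pos hx.n0 hx.t0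
  have h5 := hx.q2
  have h6 : 20 * x.μ ≤ x.θ / (100 * x.L) := by
    have h7 := hx.u1
    have hL : (8 * 10 ^ 8 : ℝ) ≤ x.L := by exact_mod_cast hx.Lge
    have hL0 : (0 : ℝ) < x.L := by linarith
    rw [le_div_iff₀ (by positivity)]
    have b1 : (x.L : ℝ) ≤ (x.L : ℝ) ^ 4 := by
      have : (1 : ℝ) ≤ x.L := by linarith
      calc (x.L : ℝ) = (x.L : ℝ) ^ 1 := (pow_one _).symm
        _ ≤ (x.L : ℝ) ^ 4 := pow_le_pow_right₀ this (by norm_num)
    have h8 := hx.m0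
    have h9 := hx.t0
    have h10 := hx.e1
    have h11 := hx.e0
    have b2 : x.μ * (x.L : ℝ) ≤ x.μ * (x.L : ℝ) ^ 4 := mul_le_mul_of_nonneg_left b1 h8.le
    nlinarith
  constructor
  · linarith [h1.1]
  · linarith [h1.2]

end Par

end Pool.Agent.H39.HW.Sc
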