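import Pool.Agent.H39.HW.SParF
import Pool.Agent.H61.HW.SBlk
import Pool.Agent.H61.HW.SAva
import Pool.Agent.H71.HW.SAvt
import Pool.Agent.H71.HW.SCto
import Pool.Agent.H71.HW.STot
import Pool.Agent.H28.HW.Win
import Pool.Agent.H96.HW.Cld
import Pool.Agent.H96.HW.Djn
import Pool.Agent.H24.HW.SLm1
import Pool.Agent.H24.HW.SRow
import Pool.Agent.H9.HW.LMN
import Pool.Agent.H31.HW.SLmr
import Pool.Agent.H31.HW.SLml
import Pool.Agent.H50.HW.Col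
import Pool.Agent.H44.HW.Col
import Pool.Agent.H62.HW.SNum
import Pool.Agent.H69.HW.SCol
import Pool.Agent.H69.HW.SVe
import Pool.Agent.H60.HW.SPat
import Pool.Agent.H60.HW.SShr
import Pool.Agent.H43.HW.Upt
import Pool.Agent.H93.HW.SKkr
import Pool.Agent.H93.HW.SPhi
import Pool.Agent.H93.HW.SKtb
import Pool.Agent.H83.HW.SVA
import Pool.Agent.H83.HW.SVB
import Pool.Agent.H97.HW.VG
import Pool.Agent.H1.HW.VH
import Pool.Agent.H33.HW.Koe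

/-!
# Project HW: assembly of the scheme side
-/

set_option autoImplicit false
open Classical Finset

namespace Pool.Agent.H39.HW.Sc

open Pool.Agent.H39.HW

theorem i_BLK : S_BLK := Pool.Agent.H61.HW.t_BLK
theorem i_AVA : S_AVA := Pool.Agent.H61.HW.t_AVA
theorem i_MMD : S_MMD := Pool.Agent.H28.HW.t_MMD
theorem i_WIN : S_WIN := Pool.Agent.H28.HW.t_WIN i_AVA
theorem i_CLD : S_CLD := Pool.Agent.H96.HW.t_CLD i_BLK i_AVA i_MMD i_WIN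
theorem i_TOT : S_TOT := Pool.Agent.H71.HW.t_TOT i_BLK i_CLD i_MMD i_WIN
theorem i_DJN : S_DJN := Pool.Agent.H96.HW.t_DJN i_BLK i_AVA i_MMD i_WIN i_CLD
theorem i_LMR : S_LMR := Pool.Agent.H31.HW.t_LMR i_BLK i_CLD i_TOT i_DJN i_MMD
theorem i_LML : S_LML := Pool.Agent.H31.HW.t_LML i_BLK i_CLD i_TOT i_DJN i_MMD
theorem i_LMN : S_LMN := Pool.Agent.H9.HW.t_LMN i_BLK i_MMD i_CLD i_TOT i_DJN
theorem i_LM1 : S_LM1 := Pool.Agent.H24.HW.t_LM1 i_DJN i_LMR i_LML i_LMN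
theorem i_CRA : S_CRA := Pool.Agent.H50.HW.t_CRA i_LM1 i_CLD i_AVA i_BLK
theorem i_CRB : S_CRB := Pool.Agent.H50.HW.t_CRB i_LM1 i_CLD i_AVA i_BLK
theorem i_CLA : S_CLA := Pool.Agent.H44.HW.t_CLA i_LM1 i_CLD i_AVA i_BLK
theorem i_CLB : S_CLB := Pool.Agent.H44.HW.t_CLB i_LM1 i_CLD i_AVA i_BLK
theorem i_CTO : S_CTO := Pool.Agent.H71.HW.t_CTO i_BLK i_CLD
theorem i_ROW : S_ROW := Pool.Agent.H24.HW.t_ROW i_LM1 i_CLD i_TOT i_BLK i_DJN i_MMD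
theorem i_COL : S_COL :=
  Pool.Agent.H69.HW.t_COL i_BLK i_CRA i_CLB i_CRB i_CLA Pool.Agent.H62.HW.t_NUM i_CTO i_TOT i_ROW
theorem i_PAT : S_PAT := Pool.Agent.H60.HW.t_PAT
theorem i_SHR : S_SHR :=
  Pool.Agent.H60.HW.Shr.t_SHR Pool.Agent.H62.HW.t_PER i_PAT i_ROW i_CLD i_WIN i_BLK i_LM1 i_TOT
theorem i_UPT : S_UPT := Pool.Agent.H43.HW.Sc.t_UPT i_SHR i_ROW i_PAT
theorem i_UPB : S_UPB := Pool.Agent.H43.HW.Sc.t_UPB i_SHR i_ROW i_COL i_PAT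
theorem i_KKR : S_KKR := Pool.Agent.H93.HW.t_KKR i_UPB
theorem i_PHI : S_PHI := Pool.Agent.H93.HW.t_PHI Pool.Agent.H33.HW.t_DEC i_KKR
theorem i_KTB : S_KTB := Pool.Agent.H93.HW.t_KTB i_KKR i_UPT i_CLD i_TOT
theorem i_VA : S_VA := Pool.Agent.H83.HW.t_VA i_BLK i_MMD
theorem i_VB : S_VB := Pool.Agent.H83.HW.t_VB i_BLK i_MMD i_WIN
theorem i_VC : S_VC := Pool.Agent.H83.HW.t_VC i_BLK
theorem i_VD : S_VD := Pool.Agent.H43.HW.Sc.t_VD i_KKR i_UPB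
theorem i_VE : S_VE := Pool.Agent.H69.HW.t_VE i_KKR
theorem i_VF : S_VF := Pool.Agent.H93.HW.t_VF i_KTB i_TOT i_CLD
theorem i_VG : S_VG := Pool.Agent.H97.HW.t_VG i_BLK i_KTB i_KKR i_TOT i_WIN i_CLD
theorem i_VH : S_VH := t_VH i_KTB i_KKR i_ROW i_VF i_CLD i_MMD i_PAT i_SHR i_TOT

/-- the scheme from the parameters -/
theorem sch_of_par (x : Prm) (hx : Par x) (φ : ℕ → ℕ → ℕ) (hφ : Ser x φ) :
    Sch x.D x.p (x.dat φ) := by
  obtain ⟨b1, b2, b3, b4, -, -, -, -⟩ := i_BLK x hx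
  obtain ⟨a1, a2, a3, a4, a5, a6, a7, a8, a9, a10, a11, a12, a13, a14, a15, a16, a17, a18, a19⟩ :=
    i_VA x hx φ
  obtain ⟨c1, c2, c3, c4⟩ := i_VB x hx φ
  obtain ⟨d1, d2, d3⟩ := i_VC x hx φ
  obtain ⟨e1, e2, e3, e4⟩ := i_VD x hx φ hφ
  obtain ⟨f1, f2, f3⟩ := i_VH x hx φ hφ
  exact {
    hp := a1
    hK := a2
    hR := a3
    hH := a4
    hm := a5
    st0 := b1
    stB := b2
    stm := b3
    KB := b4
    lnl := a6
    lnu := a7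
    dpos := a8
    opos := a9
    rho1 := a10
    rho12 := a11
    rho2 := a12
    small := a13
    tot := a14
    xi1 := a15
    xi2 := a16
    xi3 := a17
    prt := a18
    ph1 := e1
    ph2 := e2
    ph3 := e3
    ph4 := e4
    S1 := c1
    S2 := c2
    S3 := c3
    S4 := c4
    Ph1 := d1
    Ph2 := d2
    Ph3 := d3
    fre := i_VE x hx φ hφ
    rho3 := a19
    sur1 := fun a ha β hβ => (i_VF x hx φ hφ a ha β hβ).1
    sur2 := fun a ha β hβ => (i_VF x hx φ hφ a ha β hβ).2.1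
    par := i_VG x hx φ hφ
    hb1 := f1
    hb2 := f2
    hb3 := f3 }

/-- the scheme side -/
theorem t_SCH : S_SCH := by
  intro ε hε
  have key : ∀ ε : ℝ, 0 < ε → ε ≤ 1 / 10 → ∃ (B0 m0 : ℕ) (δ : ℝ), 0 < δ ∧
      ∃ D0 : ℕ, ∀ D : ℕ, D0 ≤ D → ∀ p : ℕ, ε * D ≤ p → (p : ℝ) ≤ (1 / 2 - ε) * D →
        ∃ s : Dat, Sch D p s ∧ s.B ≤ B0 ∧ s.m ≤ m0 ∧ s.H ≤ m0 ∧ s.δ = δ := by
    intro ε hε hε1
    obtain ⟨B0, m0, δ, hδ, D0, H⟩ := t_PAR ε hε hε1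
    refine ⟨B0, m0, δ, hδ, D0, fun D hD p h1 h2 => ?_⟩
    obtain ⟨x, hx, hxD, hxp, hxδ, hB, hm⟩ := H D hD p h1 h2
    obtain ⟨φ, hφ⟩ := i_PHI x hx
    have hs := sch_of_par x hx φ hφ
    rw [hxD, hxp] at hs
    refine ⟨x.dat φ, hs, hB, hm, ?_, hxδ⟩
    have ht := hx.t1
    have : 2 * x.h ≤ 2 * x.h * x.t := Nat.le_mul_of_pos_right _ ht
    exact this.trans hm
  rcases le_total ε (1 / 10) with h | h
  · exact key ε hε h
  · obtain ⟨B0, m0, δ, hδ, D0, H⟩ := key (1 / 10) (by norm_num) le_rfl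
    refine ⟨B0, m0, δ, hδ, D0, fun D hD p h1 h2 => H D hD p ?_ ?_⟩
    · have : (1 / 10 : ℝ) * D ≤ ε * D := mul_le_mul_of_nonneg_right h (Nat.cast_nonneg _)
      linarith
    · have : (1 / 2 - ε) * (D : ℝ) ≤ (1 / 2 - 1 / 10) * D :=
        mul_le_mul_of_nonneg_right (by linarith) (Nat.cast_nonneg _)
      linarith

end Pool.Agent.H39.HW.Sc
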