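import Pool.Agent.H21.HV.Fin3
import Pool.Agent.H21.HV.Typ
import Pool.Agent.H31.HV.Aae
import Pool.Agent.H31.HV.Hal
import Pool.Agent.H31.HV.Lig
import Pool.Agent.H31.HV.Sel
import Pool.Agent.H31.HV.Top
import Pool.Agent.H39.HW.SAll
import Pool.Agent.H64.HV.Cro
import Pool.Agent.H64.HV.Lab
import Pool.Agent.H65.HV.BipReg
import Pool.Agent.H65.HV.FamAsm
import Pool.Agent.H65.HV.Tgr
import Pool.Agent.H65.HW.GraAll

/-!
# The Havet-Yu conjecture for all graphs of large maximum degree `Δ` and all `p ≥ ε Δ` outside a
small window around `Δ / 2`

Proof for `ε Δ ≤ p ≤ (1/2 - ε) Δ`.  We may assume that the graph is regular of degree `D = Δ`.  The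
`D + 2 p` labels are divided into a bounded number of blocks: blocks of length about `p / K` near
both ends and slightly longer ones in the middle.  The vertices are divided at random into ordinary
cells `C_a` (one for every middle block `a`; the vertices of `C_a` get labels in the block `a`) and
special cells of small total density, whose vertices get labels near one of the two ends.  The edges
between `C_a` and `C_b` get labels of the block `a + b` (modulo the number of blocks), for which
there is nothing to spare: a vertex of `C_a` has exactly `D + 1` labels at distance at least `p`.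
The edges between ordinary and special vertices fill the remaining places in all blocks exactly:
labels in blocks which are only partly at distance `p` from a vertex are distributed first, by
matchings, one label after the other; then for every vertex of `C_a` and every block the number of
remaining edges is made equal to the number of labels by moving some of the edges to reserved
blocks, and Koenig's theorem is applied to the bipartite graphs
`C_a ∪ {special vertices serving b}`, `C_b ∪ {special vertices serving a}`.  The service of the
ordinary cells by the special cells comes from an explicit solution of a transportation problem,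
rounded and decomposed by Koenig's theorem.

Proof for `p ≥ (1/2 + ε) Δ`: near-maximal cliques get a small proportion of vertices with labels in
the middle, whose edges are coloured from tight lists by Hall's theorem and the lopsided local
lemma; see `Pool/Agent/H21/HV`.
-/

set_option autoImplicit false

namespace Pool.Agent.H39.HW.LinearRange

/-- `TotalLabeling G p l`: the graph `G` has a `(p,1)`-total labeling of span `l`, that is, labels
`0, …, l` for the vertices (`fV`) and the edges (`fE`) such that adjacent vertices get different
labels, edges sharing an endpoint get different labels, and the labels of a vertex and of an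
incident edge differ by at least `p`. -/
def TotalLabeling {V : Type} (G : SimpleGraph V) (p l : ℕ) : Prop :=
  ∃ (fV : V → ℕ) (fE : Sym2 V → ℕ),
    (∀ v, fV v ≤ l) ∧ (∀ e ∈ G.edgeSet, fE e ≤ l) ∧
    (∀ u v, G.Adj u v → fV u ≠ fV v) ∧
    (∀ u v w, G.Adj u v → G.Adj u w → v ≠ w → fE s(u, v) ≠ fE s(u, w)) ∧
    (∀ u v, G.Adj u v → (p : ℤ) ≤ |(fV u : ℤ) - (fE s(u, v) : ℤ)|)

open Pool.Agent.H21.HV in
theorem upper : S_FIN :=
  t_FIN Pool.Agent.H65.HV.t_FAM Pool.Agent.H31.HV.t_SEL t_TYP Pool.Agent.H64.HV.t_CRO
    (Pool.Agent.H65.HV.t_TGR Pool.Agent.H65.HV.t_BIP Pool.Agent.H65.HV.t_REG)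
    Pool.Agent.H64.HV.t_LAB
    (Pool.Agent.H31.HV.t_TOP Pool.Agent.H31.HV.t_LIG Pool.Agent.H31.HV.t_HAL
      Pool.Agent.H31.HV.t_AAE)
    Pool.Agent.H65.HV.t_ASM

theorem lower : Pool.Agent.H39.HW.S_FIN :=
  Pool.Agent.H65.HW.fin_all Pool.Agent.H39.HW.Sc.t_SCH

/-- **The Havet-Yu conjecture for all graphs of large maximum degree `Δ` and all `p ≥ ε Δ` with
`|p - Δ/2| ≥ ε Δ`.**  For every `ε > 0` there is `D₀` such that every finite simple graph `G` with
maximum degree `Δ ≥ D₀` has, for every `p` with `p ≥ ε Δ` and `|p - Δ/2| ≥ ε Δ`, a `(p,1)`-total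
labeling of span `Δ + 2 p - 1`. -/
theorem result : ∀ ε : ℝ, 0 < ε → ∃ D₀ : ℕ, ∀ (V : Type) [Fintype V] (G : SimpleGraph V)
    [DecidableRel G.Adj] (p : ℕ), D₀ ≤ G.maxDegree → ε * (G.maxDegree : ℝ) ≤ p →
      ε * (G.maxDegree : ℝ) ≤ |(p : ℝ) - (G.maxDegree : ℝ) / 2| →
        TotalLabeling G p (G.maxDegree + 2 * p - 1) := by
  intro ε hε
  obtain ⟨D₁, hD₁⟩ := upper ε hε
  obtain ⟨D₂, hD₂⟩ := lower ε hε
  refine ⟨max D₁ D₂, ?_⟩
  intro V _ G _ p hD hp hw
  have hdeg : ∀ v, Pool.Agent.H21.HV.nb G Finset.univ v ≤ G.maxDegree := by
    intro v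
    have h := G.degree_le_maxDegree v
    refine le_trans (le_of_eq ?_) h
    unfold Pool.Agent.H21.HV.nb
    rw [← SimpleGraph.card_neighborFinset_eq_degree]
    congr 1
    ext y
    simp
  rcases le_abs.mp hw with h | h
  · exact hD₁ G.maxDegree (le_trans (le_max_left _ _) hD) p (by linarith) V G hdeg
  · exact hD₂ G.maxDegree (le_trans (le_max_right _ _) hD) p hp (by linarith) V G hdeg

end Pool.Agent.H39.HW.LinearRange
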