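import Pool.Agent.H39.HW.Defs

/-!
# Project HW, scheme side: definitions

See `Pool/Agent/H39/HW/NOTES2.md`.
-/

set_option autoImplicit false
open Classical Finset

namespace Pool.Agent.H39.HW.Sc

open Pool.Agent.H39.HW

/-- the parameters -/
structure Prm where
  D : ℕ
  p : ℕ
  /-- number of blocks of a window of length `p` -/
  K : ℕ
  /-- number of blocks of the windows of the special vertices -/
  J : ℕ
  /-- number of middle blocks -/
  M : ℕ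
  /-- least number of middle blocks with at least `p - 1` labels -/
  g : ℕ
  /-- error in the number of adjacent blocks -/
  e : ℕ
  /-- number of parts of each type -/
  h : ℕ
  /-- length of the pattern -/
  L : ℕ
  /-- number of patterns in a window -/
  q : ℕ
  /-- number of special cells in a part -/
  t : ℕ
  /-- length of a small block -/
  w : ℕ
  /-- length of a middle block -/
  v : ℕ
  μ : ℝ
  ε : ℝ
  η : ℝ
  δ : ℝ

namespace Prm

variable (x : Prm)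

def b0 : ℕ := x.K + x.J
def b1 : ℕ := x.K + x.J + x.M
def B : ℕ := 2 * x.K + 2 * x.J + x.M
def W : ℕ := x.L * x.q
noncomputable def c : ℝ := (x.p : ℝ) / x.D
/-- total weight of the special cells -/
noncomputable def θ : ℝ := 1 - ((x.M : ℝ) + 2 * x.J - 1) * x.μ

/-- the blocks: small ones below `b0` and above `b1`, `M` middle ones -/
def st (β : ℕ) : ℕ :=
  if β ≤ x.b0 then β * x.w
  else if β ≤ x.b1 then x.b0 * x.w + (β - x.b0) * x.v
  else if β < x.B then x.b0 * x.w + x.M * x.v + (β - x.b1) * x.w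
  else x.D + 2 * x.p

def R : Finset ℕ := Finset.Icc (x.K + 1) (x.b1 + x.J - 1)

def mid : Finset ℕ := Finset.Ico x.b0 x.b1

/-- the window of the row `a` -/
def win (a : ℕ) : ℕ :=
  if x.b1 ≤ a + x.K then (a - x.K - x.b0) / x.W + 1 else (a + x.K - x.b0) / x.W - 1

/-- position `i` of the pattern is not used for the service in the part `P` -/
def resv (P i : ℕ) : Prop :=
  (i < 4 * x.h ^ 2 ∧ (i / (2 * x.h) = P ∨ i % (2 * x.h) = P)) ∨ i = 4 * x.h ^ 2 + P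

noncomputable def S (P a : ℕ) : Finset ℕ :=
  x.mid.filter fun β => (β - x.b0) / x.W = x.win a ∧ (β - x.b0) % x.L = 4 * x.h ^ 2 + P

noncomputable def F (P : ℕ) : Finset ℕ := x.mid.filter fun β => x.resv P ((β - x.b0) % x.L)

noncomputable def Φ (P Q : ℕ) : Finset ℕ :=
  x.mid.filter fun β => (β - x.b0) % x.L < 4 * x.h ^ 2 ∧
    (((β - x.b0) % x.L / (2 * x.h) = P ∧ (β - x.b0) % x.L % (2 * x.h) = Q) ∨
     ((β - x.b0) % x.L / (2 * x.h) = Q ∧ (β - x.b0) % x.L % (2 * x.h) = P))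

/-- the data without service and hubs -/
noncomputable def d0 : Dat where
  B := x.B
  K := x.K
  R := x.R
  m := 2 * x.h * x.t
  H := 2 * x.h
  st := x.st
  ty := fun P => decide (P < x.h)
  part := fun y => y / x.t
  φ := fun _ _ => 0
  S := x.S
  F := x.F
  Φ := x.Φ
  Hb := fun _ => ∅
  ξ := x.J * x.w
  μ := x.μ
  ω := x.θ / (2 * x.h * x.t)
  δ := x.δ
  ρ1 := 1 / (200 * x.L)
  ρ2 := 1 / (32 * x.L)
  ρ3 := x.ε * x.θ / 200
  e1 := x.θ / (10 ^ 3 * x.L ^ 2 * x.h)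

noncomputable def cls (a : ℕ) : Finset ℕ := x.d0.cls x.p a
noncomputable def mm (a : ℕ) : Finset ℕ := x.d0.mm a
noncomputable def dem (a β : ℕ) : ℝ := x.d0.dem x.D a β

/-- the hub: unreserved middle blocks used with other rows -/
noncomputable def Hb (a : ℕ) : Finset ℕ :=
  (x.cls a).filter fun β => β ∈ x.mid ∧ β ∈ x.mm a ∧ 4 * x.h ^ 2 + 2 * x.h ≤ (β - x.b0) % x.L

/-- the data with the service `φ` -/
noncomputable def dat (φ : ℕ → ℕ → ℕ) : Dat := { x.d0 with φ := φ, Hb := x.Hb }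

/-- the block `β` is adjacent to the row `a` -/
def adj (a β : ℕ) : Prop := β ≤ a + x.K ∧ a ≤ β + x.K

/-- part of type `true` in the service of the class `β` of the row `a` (`l` for flexible ones) -/
noncomputable def gA (l : ℝ) (a β : ℕ) : ℝ :=
  if β < x.b0 then 0
  else if x.b1 ≤ β then 1
  else if x.adj a β then
    if (x.b1 ≤ a + x.K ↔ β < a) then l else 1 / 2
  else if x.b1 ≤ a + x.K then
    if β + 2 * x.K < x.b1 then 1 / 2 - x.c / 10 else 3 / 5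
  else if a < x.b0 + x.K then
    if x.b0 + 2 * x.K ≤ β then 1 / 2 + x.c / 10 else 2 / 5
  else 1 / 2

/-- flexible classes of the row `a` -/
noncomputable def Fx (a : ℕ) : Finset ℕ :=
  (x.cls a).filter fun β => β ∈ x.mid ∧ x.adj a β ∧ (x.b1 ≤ a + x.K ↔ β < a)

/-- the other adjacent middle classes -/
noncomputable def Nx (a : ℕ) : Finset ℕ :=
  (x.cls a).filter fun β => β ∈ x.mid ∧ x.adj a β ∧ ¬ (x.b1 ≤ a + x.K ↔ β < a)

noncomputable def Dt (a : ℕ) : ℝ := ∑ β ∈ x.cls a, x.dem a β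
noncomputable def DJ (a : ℕ) : ℝ := ∑ β ∈ x.Fx a, x.dem a β
noncomputable def DN (a : ℕ) : ℝ := ∑ β ∈ x.Nx a, x.dem a β

/-- the fraction of type `true` on the flexible classes -/
noncomputable def lam (a : ℕ) : ℝ :=
  (x.Dt a / 2 - ∑ β ∈ x.cls a, x.gA 0 a β * x.dem a β) / x.DJ a

/-- fraction of the type `τ` -/
noncomputable def fr (τ : Bool) (a β : ℕ) : ℝ :=
  if τ then x.gA (x.lam a) a β else 1 - x.gA (x.lam a) a β

/-- normalised service of type `τ` -/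
noncomputable def u (τ : Bool) (a β : ℕ) : ℝ :=
  if β ∈ x.cls a then 2 * x.fr τ a β * x.dem a β / x.Dt a else 0

/-- type of the part `P` -/
def tp (P : ℕ) : Bool := decide (P < x.h)

/-- number of the parts of type `τ` which can serve at position `i` of the pattern -/
noncomputable def nn (τ : Bool) (i : ℕ) : ℕ :=
  ((range (2 * x.h)).filter fun P => x.tp P = τ ∧ ¬ x.resv P i).card

/-- weight of the part `P` at position `i` -/
noncomputable def wt (P i : ℕ) : ℝ := if x.resv P i then 0 else (x.h : ℝ) / x.nn (x.tp P) i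

/-- weight of the part `P` for the block `β` -/
noncomputable def wb (P β : ℕ) : ℝ := if β ∈ x.mid then x.wt P ((β - x.b0) % x.L) else 1

noncomputable def rs (P a : ℕ) : ℝ := ∑ β ∈ range x.B, x.wb P β * x.u (x.tp P) a β

/-- normalised service by the part `P` -/
noncomputable def uP (P a β : ℕ) : ℝ := x.wb P β * x.u (x.tp P) a β / x.rs P a

/-- number of cells of the part `P` which serve the row `a` with the block `β` -/
noncomputable def kk (P a β : ℕ) : ℕ :=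
  ⌊(x.t : ℝ) * ∑ b ∈ range (β + 1), x.uP P a b⌋₊ - ⌊(x.t : ℝ) * ∑ b ∈ range β, x.uP P a b⌋₊

end Prm

/-- the inequalities between the parameters -/
structure Par (x : Prm) : Prop where
  e0 : 0 < x.ε
  e1 : x.ε ≤ 1 / 10
  c1 : x.ε ≤ x.c
  c2 : x.c ≤ 1 / 2 - x.ε
  n0 : 0 < x.η
  n1 : 10 ^ 4 * x.η ≤ x.ε
  h1 : 1000 ≤ x.ε * x.h
  L1 : x.L = 8 * x.h ^ 2 + 4 * x.h
  Ln : 1 ≤ x.η * x.L
  D1 : 1 ≤ x.D
  J1 : 1 ≤ x.J
  q1 : 1 ≤ x.q
  t1 : 1 ≤ x.t
  w1 : 1 ≤ x.w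
  wv : x.w < x.v
  /-- `K` small blocks have at least `p` labels, `K - 1` fewer than `p - 1` -/
  pK : x.p ≤ x.K * x.w
  pK' : (x.K - 1) * x.w + 2 ≤ x.p
  KJ : 4 * x.J + 4 ≤ x.K
  KM : 2 * x.K + 2 * (x.K - x.g) + 4 * x.J + 4 ≤ x.M
  /-- `g` middle blocks have at least `p - 1` labels, `g - 1` have fewer -/
  g0 : 1 ≤ x.g
  g1 : x.g ≤ x.K
  g2 : x.p ≤ x.g * x.v + 1
  g3 : (x.g - 1) * x.v + 1 < x.p
  e2 : x.J * (x.v - x.w) ≤ x.e * x.v
  e3 : ((x.e : ℝ) + 1) * x.μ ≤ x.η * x.θ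
  N1 : 2 * (x.K + x.J) * x.w + x.M * x.v ≤ x.D + 2 * x.p
  N2 : x.D + 2 * x.p < 2 * (x.K + x.J) * x.w + x.M * x.v + x.M
  m0 : 0 < x.μ
  t0 : 0 < x.θ
  th : x.θ ≤ x.η
  tL : 10 * x.L * x.θ ≤ 1
  s1 : |(x.w : ℝ) / x.D - x.μ - 2 / 5 * x.θ * x.μ| ≤ x.η * x.θ * x.μ
  s2 : |(x.v : ℝ) / x.D - x.μ - x.θ * x.μ| ≤ x.η * x.θ * x.μ
  k1 : |x.K * x.μ - x.c| ≤ x.η
  m1 : |x.M * x.μ - 1| ≤ x.η
  j1 : x.J * x.μ ≤ x.η
  j2 : |((x.K : ℝ) - x.g) * (x.v / x.D) - 3 / 5 * x.c * x.θ| ≤ x.η * x.θ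
  q2 : x.θ / (100 * x.L) ≤ 2 * x.h * x.q * ((x.v : ℝ) / x.D)
  q3 : 2 * x.h * x.q * ((x.v : ℝ) / x.D) ≤ x.θ / (60 * x.L)
  W1 : 8 * x.W + 8 * x.e + 8 ≤ x.K - x.g
  u1 : 10 ^ 9 * (x.L : ℝ) ^ 4 * x.μ ≤ x.ε * x.θ
  D2 : 10 ^ 9 * ((x.B : ℝ) + 1) ≤ x.η * x.θ * x.μ * x.D
  t2 : 10 ^ 9 * (x.L : ℝ) ^ 2 * x.B ≤ x.ε * x.t
  d0 : 0 < x.δ
  d1 : 10 ^ 9 * (x.L : ℝ) * (2 * x.h * x.t + 2) ^ 2 * (x.B + 2) * (2 * x.h + 2) * x.δ ≤ x.θ
  xi : x.θ * x.D + 2 * x.h * x.t * x.δ * x.D + 2 ≤ x.J * x.w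

end Pool.Agent.H39.HW.Sc
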