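import Pool.Agent.H39.HW.SDefs

/-!
# Project HW, scheme side: statements of the parts

Prove `S_XXX` as `theorem t_XXX : S_XXX`, a part using others as
`theorem t_XXX (h : S_YYY) : S_XXX`.  Proofs: `Pool/Agent/H39/HW/NOTES2.md`.
-/

set_option autoImplicit false
open Classical Finset

namespace Pool.Agent.H39.HW.Sc

open Pool.Agent.H39.HW

/-! ### blocks and adjacency -/

/-- BLK: the function `st` -/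
def S_BLK : Prop := ∀ x : Prm, Par x →
  x.st 0 = 0 ∧ x.st x.B = x.D + 2 * x.p ∧ (∀ β, x.st β ≤ x.st (β + 1)) ∧
  (∀ i, i + x.K ≤ x.B → x.st i + x.p ≤ x.st (i + x.K)) ∧
  (∀ β, β < x.b0 → ln x.st β = x.w) ∧ (∀ β, x.b0 ≤ β → β < x.b1 → ln x.st β = x.v) ∧
  (∀ β, x.b1 ≤ β → β + 1 < x.B → ln x.st β = x.w) ∧
  (∀ β, β + 1 = x.B → x.w ≤ ln x.st β ∧ ln x.st β ≤ x.w + x.M)

/-- AVA: which blocks are at distance at least `p` from the row `a` -/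
def S_AVA : Prop := ∀ x : Prm, Par x → ∀ a ∈ x.R, ∀ β < x.B,
  (¬ x.adj a β → Av x.st x.p a β) ∧
  (a ≤ β → Av x.st x.p a β → a + x.g + 1 ≤ β) ∧
  (β ≤ a → Av x.st x.p a β → β + x.g + 1 ≤ a) ∧
  (x.b0 ≤ β → β < x.b1 → a + x.g + 1 + x.e ≤ β → Av x.st x.p a β) ∧
  (x.b0 ≤ β → β < x.b1 → β + x.g + 1 + x.e ≤ a → Av x.st x.p a β) ∧
  (x.b0 ≤ β → β < x.b1 → x.b0 ≤ a → a < x.b1 → a + x.g + 1 ≤ β → Av x.st x.p a β) ∧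
  (x.b0 ≤ β → β < x.b1 → x.b0 ≤ a → a < x.b1 → β + x.g + 1 ≤ a → Av x.st x.p a β)

/-- AVT: adjacent blocks in the top zone and in the bottom zone -/
def S_AVT : Prop := ∀ x : Prm, Par x → ∀ a ∈ x.R, ∀ β < x.B, x.adj a β → Av x.st x.p a β →
  (x.b1 ≤ β → a < x.b1 ∧ x.p ≤ (x.b1 - 1 - a) * x.v + (β - x.b1) * x.w + 1) ∧
  (β < x.b0 → x.b0 ≤ a ∧ x.p ≤ (a - x.b0) * x.v + (x.b0 - 1 - β) * x.w + 1)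

/-- MMD: description of `mm` -/
def S_MMD : Prop := ∀ x : Prm, Par x → x.R.card = x.M + 2 * x.J - 1 ∧ ∀ a ∈ x.R,
  (∀ β, β ∈ x.mm a ↔ β < x.B ∧ ¬ x.adj a β ∧ β ≠ sm x.B a a) ∧
  (x.mm a).card + 1 = x.R.card ∧ sm x.B a a < x.B ∧ ¬ x.adj a (sm x.B a a)

/-- WIN: the windows of the rows -/
def S_WIN : Prop := ∀ x : Prm, Par x → ∀ a ∈ x.R,
  (∀ β ∈ x.mid, (β - x.b0) / x.W = x.win a →
    Av x.st x.p a β ∧ x.adj a β ∧ (x.b1 ≤ a + x.K ↔ β < a)) ∧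
  x.b0 + (x.win a + 1) * x.W ≤ x.b1 ∧ (∀ P < 2 * x.h, (x.S P a).card = x.q) ∧
  (x.R.filter fun b => x.win b = x.win a).card ≤ 2 * x.W

/-- CLD: description of the classes and of their demands -/
def S_CLD : Prop := ∀ x : Prm, Par x → ∀ a ∈ x.R,
  (∀ β, β ∈ x.cls a ↔ β < x.B ∧ Av x.st x.p a β ∧ β ≠ sm x.B a a ∧
    ¬ (β ∈ x.mid ∧ (β - x.b0) / x.W = x.win a ∧ 4 * x.h ^ 2 ≤ (β - x.b0) % x.L ∧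
      (β - x.b0) % x.L < 4 * x.h ^ 2 + 2 * x.h)) ∧
  x.mm a ⊆ x.cls a ∧
  (∀ β ∈ x.cls a, x.adj a β → x.dem a β = (ln x.st β : ℝ) / x.D) ∧
  (∀ β ∈ x.cls a, ¬ x.adj a β → x.dem a β = (ln x.st β : ℝ) / x.D - x.μ) ∧
  (∀ β ∈ x.cls a, 3 / 10 * x.θ * x.μ ≤ x.dem a β ∧ x.dem a β ≤ 2 * x.μ)

/-- TOT: the total demand of a row -/
def S_TOT : Prop := ∀ x : Prm, Par x → ∀ a ∈ x.R,
  |x.Dt a - (x.θ - 2 * x.h * x.q * ((x.v : ℝ) / x.D))| ≤ 20 * x.μ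

/-! ### the flexible fraction -/

/-- DJN: the demand of the adjacent middle classes -/
def S_DJN : Prop := ∀ x : Prm, Par x → ∀ a ∈ x.R,
  (3 / 5 * x.c - 4 * x.η) * x.θ ≤ x.DJ a ∧ x.DJ a ≤ (3 / 5 * x.c + x.η) * x.θ ∧
  0 ≤ x.DN a ∧ x.DN a ≤ (3 / 5 * x.c + x.η) * x.θ ∧
  (x.b1 ≤ a + x.g + 1 → x.DN a = 0) ∧ (a < x.b0 + x.g + 1 → x.DN a = 0) ∧
  (x.b0 + x.K ≤ a → a + x.K < x.b1 → (3 / 5 * x.c - x.η) * x.θ ≤ x.DN a)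

/-- LMR: rows `a` with `b1 ≤ a + K` -/
def S_LMR : Prop := ∀ x : Prm, Par x → ∀ a ∈ x.R, x.b1 ≤ a + x.K →
  |(1 - x.lam a) * x.DJ a + x.DN a / 2 - (x.c / 2 + x.c ^ 2 / 5 -
    2 / 5 * (((a : ℝ) + x.K - x.b1) * x.μ)) * x.θ| ≤ 20 * x.η * x.θ

/-- LML: rows `a < b0 + K` -/
def S_LML : Prop := ∀ x : Prm, Par x → ∀ a ∈ x.R, a < x.b0 + x.K →
  |x.lam a * x.DJ a + x.DN a / 2 - (x.c / 2 + x.c ^ 2 / 5 -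
    2 / 5 * (((x.b0 : ℝ) + x.K - a) * x.μ)) * x.θ| ≤ 20 * x.η * x.θ

/-- LMN: the other rows -/
def S_LMN : Prop := ∀ x : Prm, Par x → ∀ a ∈ x.R, x.b0 + x.K ≤ a → a + x.K < x.b1 →
  |x.lam a * x.DJ a + x.DN a / 2 - 3 / 5 * x.c * x.θ| ≤ 20 * x.η * x.θ

/-- LM1: the fraction is a fraction; bounds for `lam` times the number of adjacent blocks -/
def S_LM1 : Prop := ∀ x : Prm, Par x → ∀ a ∈ x.R,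
  0 ≤ x.lam a ∧ x.lam a ≤ 1 ∧
  (x.b1 ≤ a + x.K →
    (1 - x.lam a) * (((x.K : ℝ) - x.g) * (x.v / x.D)) ≤
      (x.c / 2 + x.c ^ 2 / 5 - 2 / 5 * (((a : ℝ) + x.K - x.b1) * x.μ) + 50 * x.η) * x.θ ∧
    x.lam a * (((x.K : ℝ) - x.g) * (x.v / x.D)) ≤
      (x.c / 10 - x.c ^ 2 / 5 + 2 / 5 * (((a : ℝ) + x.K - x.b1) * x.μ) +
        (if x.b1 ≤ a + x.g + 1 then 0 else 3 / 10 * x.c) + 50 * x.η) * x.θ) ∧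
  (a < x.b0 + x.K →
    x.lam a * (((x.K : ℝ) - x.g) * (x.v / x.D)) ≤
      (x.c / 2 + x.c ^ 2 / 5 - 2 / 5 * (((x.b0 : ℝ) + x.K - a) * x.μ) + 50 * x.η) * x.θ ∧
    (1 - x.lam a) * (((x.K : ℝ) - x.g) * (x.v / x.D)) ≤
      (x.c / 10 - x.c ^ 2 / 5 + 2 / 5 * (((x.b0 : ℝ) + x.K - a) * x.μ) +
        (if a < x.b0 + x.g + 1 then 0 else 3 / 10 * x.c) + 50 * x.η) * x.θ) ∧
  (x.b0 + x.K ≤ a → a + x.K < x.b1 →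
    x.lam a * (((x.K : ℝ) - x.g) * (x.v / x.D)) ≤ (3 / 10 * x.c + 50 * x.η) * x.θ ∧
    (1 - x.lam a) * (((x.K : ℝ) - x.g) * (x.v / x.D)) ≤ (3 / 10 * x.c + 50 * x.η) * x.θ)

/-! ### column sums -/

/-- the four bounds: `y` is the distance to the end of the middle zone -/
noncomputable def G1f (c y : ℝ) : ℝ := (y - c) / 2 + c ^ 2 / 10 + 3 / 10 * c
noncomputable def G1n (c y : ℝ) : ℝ :=
  2 / 5 * max (y - c) 0 + c / 2 + c ^ 2 / 5 - 2 / 5 * (2 * c - y)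
noncomputable def G2f (c y : ℝ) : ℝ := (y - c) / 2 - c ^ 2 / 10 + 3 / 10 * c
noncomputable def G2n (c y : ℝ) : ℝ :=
  3 / 5 * max (y - c) 0 + c / 10 - c ^ 2 / 5 + 2 / 5 * (2 * c - y)
noncomputable def G2m (c y : ℝ) : ℝ := 3 / 5 * max (y - c) 0 + 2 / 5 * c - c ^ 2 / 5

/-- CRA: rows below the block, type `true` -/
def S_CRA : Prop := ∀ x : Prm, Par x → ∀ β ∈ x.mid,
  ∑ a ∈ x.R.filter (fun a => a < β ∧ β ∈ x.cls a), x.fr true a β * x.dem a β ≤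
    ((if x.b0 + 2 * x.K ≤ β then G1f x.c (((β : ℝ) - x.b0) * x.μ)
      else if x.K + x.g + 2 ≤ β then G1n x.c (((β : ℝ) - x.b0) * x.μ) else 0) + 100 * x.η) * x.θ

/-- CLB: rows above the block, type `false` -/
def S_CLB : Prop := ∀ x : Prm, Par x → ∀ β ∈ x.mid,
  ∑ a ∈ x.R.filter (fun a => β < a ∧ β ∈ x.cls a), x.fr false a β * x.dem a β ≤
    ((if β + 2 * x.K < x.b1 then G1f x.c (((x.b1 : ℝ) - β) * x.μ)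
      else if β + x.g + 2 ≤ x.b1 + x.J then G1n x.c (((x.b1 : ℝ) - β) * x.μ) else 0)
      + 100 * x.η) * x.θ

/-- CRB: rows below the block, type `false` -/
def S_CRB : Prop := ∀ x : Prm, Par x → ∀ β ∈ x.mid,
  ∑ a ∈ x.R.filter (fun a => a < β ∧ β ∈ x.cls a), x.fr false a β * x.dem a β ≤
    ((if x.b0 + 2 * x.K ≤ β then G2f x.c (((β : ℝ) - x.b0) * x.μ)
      else if x.b0 + 2 * x.g + 2 ≤ β then max (G2n x.c (((β : ℝ) - x.b0) * x.μ))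
        (G2m x.c (((β : ℝ) - x.b0) * x.μ))
      else if x.K + x.g + 2 ≤ β then G2n x.c (((β : ℝ) - x.b0) * x.μ) else 0) + 100 * x.η) * x.θ

/-- CLA: rows above the block, type `true` -/
def S_CLA : Prop := ∀ x : Prm, Par x → ∀ β ∈ x.mid,
  ∑ a ∈ x.R.filter (fun a => β < a ∧ β ∈ x.cls a), x.fr true a β * x.dem a β ≤
    ((if β + 2 * x.K < x.b1 then G2f x.c (((x.b1 : ℝ) - β) * x.μ)
      else if β + 2 * x.g + 2 ≤ x.b1 then max (G2n x.c (((x.b1 : ℝ) - β) * x.μ))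
        (G2m x.c (((x.b1 : ℝ) - β) * x.μ))
      else if β + x.g + 2 ≤ x.b1 + x.J then G2n x.c (((x.b1 : ℝ) - β) * x.μ) else 0)
      + 100 * x.η) * x.θ

/-- NUM: the numerical inequality -/
def S_NUM : Prop := ∀ ε η c y z : ℝ, 0 < ε → 0 < η → 10 ^ 4 * η ≤ ε → ε ≤ c → c ≤ 1 / 2 - ε →
  |y + z - 1| ≤ η → 0 ≤ y → 0 ≤ z →
  ∀ A C : ℝ,
    ((2 * c - 5 * η ≤ y ∧ A = G1f c y) ∨ (c - 5 * η ≤ y ∧ y ≤ 2 * c + 5 * η ∧ A = G1n c y) ∨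
      (y ≤ c + 5 * η ∧ A = 0)) →
    ((2 * c - 5 * η ≤ z ∧ C = G2f c z) ∨
      (c - 5 * η ≤ z ∧ z ≤ 2 * c + 5 * η ∧ C = G2n c z) ∨
      (2 * c - 10 * η ≤ z ∧ z ≤ 2 * c + 5 * η ∧ C = G2m c z) ∨
      (z ≤ c + 5 * η ∧ C = 0)) →
    A + C ≤ 1 / 2 - ε / 10 + 50 * η

/-- CTO: columns in the top zone and in the bottom zone -/
def S_CTO : Prop := ∀ x : Prm, Par x → ∀ β < x.B, β ∉ x.mid →
  ∑ a ∈ x.R.filter (fun a => β ∈ x.cls a), x.dem a β ≤ (1 / 2 - x.ε / 10 + 100 * x.η) * x.θ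

/-- COL: column sums -/
def S_COL : Prop := ∀ x : Prm, Par x → ∀ τ : Bool, ∀ β < x.B,
  ∑ a ∈ x.R, x.u τ a β ≤ 1 - x.ε / 10

/-- ROW: basic facts on `u` -/
def S_ROW : Prop := ∀ x : Prm, Par x → ∀ a ∈ x.R, ∀ τ : Bool,
  (∀ β, 0 ≤ x.u τ a β) ∧ (∀ β, x.u τ a β ≤ 5 * x.μ / x.θ) ∧
  ∑ β ∈ range x.B, x.u τ a β = 1 ∧
  (∀ β, x.u τ a β ≠ 0 → β ∈ x.cls a ∧ x.d0.Al x.D x.p τ β) ∧
  (∀ β, x.u true a β + x.u false a β = if β ∈ x.cls a then 2 * x.dem a β / x.Dt a else 0) ∧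
  (∀ β ∈ x.Hb a, 2 / 5 * (2 * x.dem a β / x.Dt a) ≤ x.u τ a β)

/-! ### parts -/

/-- PAT: the pattern -/
def S_PAT : Prop := ∀ x : Prm, Par x → ∀ P < 2 * x.h,
  (∀ i, 0 ≤ x.wt P i ∧ (x.wt P i : ℝ) ≤ 1 + 3 / x.h) ∧ (∀ i, ¬ x.resv P i → 1 ≤ x.wt P i) ∧
  ∑ i ∈ range x.L, x.wt P i = x.L ∧
  ∑ i ∈ Finset.Ico (4 * x.h ^ 2) (4 * x.h ^ 2 + 2 * x.h), x.wt P i = 2 * x.h ∧
  ∀ τ i, ∑ Q ∈ (range (2 * x.h)).filter (fun Q => x.tp Q = τ), x.wt Q i = x.h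

/-- PER: sums of a function of period `L` with mean `0` -/
def S_PER : Prop := ∀ (L b : ℕ) (C : ℝ) (f : ℕ → ℝ), 1 ≤ L → 0 ≤ C → ∑ i ∈ range L, f i = 0 →
  (∀ i, |f i| ≤ C) → ∀ y z : ℕ, b ≤ y → |∑ β ∈ Finset.Ico y z, f ((β - b) % L)| ≤ 2 * C * L

/-- SHR: the shares of the parts of the same type in a row are almost equal -/
def S_SHR : Prop := ∀ x : Prm, Par x → ∀ P < 2 * x.h, ∀ a ∈ x.R,
  |x.rs P a - 1| ≤ 200 * x.L * x.μ / x.θ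

/-- UPB: facts on `uP` -/
def S_UPB : Prop := ∀ x : Prm, Par x → ∀ P < 2 * x.h,
  (∀ a ∈ x.R, (∀ β, 0 ≤ x.uP P a β) ∧ ∑ β ∈ range x.B, x.uP P a β = 1 ∧
    (∀ β, x.uP P a β ≠ 0 → β ∈ x.cls a ∧ x.d0.Al x.D x.p (x.tp P) β ∧ β ∉ x.F P)) ∧
  ∀ β < x.B, ∑ a ∈ x.R, x.uP P a β ≤ 1 - x.ε / 20

/-- UPT: the total of all parts -/
def S_UPT : Prop := ∀ x : Prm, Par x → ∀ a ∈ x.R, ∀ β ∈ x.cls a,
  |∑ P ∈ range (2 * x.h), x.uP P a β - 2 * x.h * x.dem a β / x.Dt a| ≤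
    1 / (10 ^ 4 * x.L ^ 2 * x.h) * (2 * x.h * x.dem a β / x.Dt a)

/-- KKR: rounding -/
def S_KKR : Prop := ∀ x : Prm, Par x → ∀ P < 2 * x.h,
  (∀ a ∈ x.R, ∑ β ∈ range x.B, x.kk P a β = x.t ∧
    (∀ β, |(x.kk P a β : ℝ) - x.t * x.uP P a β| ≤ 1) ∧
    (∀ β, x.uP P a β = 0 → x.kk P a β = 0) ∧ (∀ β, x.B ≤ β → x.kk P a β = 0)) ∧
  ∀ β < x.B, (∑ a ∈ x.R, x.kk P a β : ℝ) ≤ (1 - x.ε / 25) * x.t

/-- PHI: the service -/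
def S_PHI : Prop := ∀ x : Prm, Par x → ∃ φ : ℕ → ℕ → ℕ,
  (∀ y < 2 * x.h * x.t, ∀ a ∈ x.R, ∀ b ∈ x.R, φ y a = φ y b → a = b) ∧
  ∀ P < 2 * x.h, ∀ a ∈ x.R, ∀ β,
    ((range (2 * x.h * x.t)).filter fun y => y / x.t = P ∧ φ y a = β).card = x.kk P a β

/-- the properties of the service -/
def Ser (x : Prm) (φ : ℕ → ℕ → ℕ) : Prop :=
  (∀ y < 2 * x.h * x.t, ∀ a ∈ x.R, ∀ b ∈ x.R, φ y a = φ y b → a = b) ∧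
  ∀ P < 2 * x.h, ∀ a ∈ x.R, ∀ β,
    ((range (2 * x.h * x.t)).filter fun y => y / x.t = P ∧ φ y a = β).card = x.kk P a β

/-- KTB: the numbers `kt` and `k` -/
def S_KTB : Prop := ∀ x : Prm, Par x → ∀ φ, Ser x φ → ∀ a ∈ x.R,
  (∀ P < 2 * x.h, ∀ β, (x.dat φ).k P a β = x.kk P a β) ∧
  ∀ β ∈ x.cls a,
    |((x.dat φ).kt a β : ℝ) - 2 * x.h * x.t * x.dem a β / x.Dt a| ≤
      1 / (10 ^ 4 * x.L ^ 2) * (2 * x.h * x.t * x.dem a β / x.Dt a)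

/-! ### the fields of `Sch` -/

/-- VA: the fields on blocks and weights -/
def S_VA : Prop := ∀ x : Prm, Par x → ∀ φ,
  let s := x.dat φ
  1 ≤ x.p ∧ 2 * s.K + 2 ≤ s.B ∧ (∀ a ∈ s.R, s.K + 1 ≤ a ∧ a + s.K + 1 ≤ s.B) ∧
  1 ≤ s.H ∧ 1 ≤ s.m ∧
  (∀ β < s.B, (s.μ + 2 * s.δ) * x.D + 2 ≤ ln s.st β) ∧
  (∀ β < s.B, (ln s.st β : ℝ) ≤ 3 * s.μ * x.D) ∧
  0 < s.δ ∧ s.ω ≤ s.μ ∧ 0 < s.ρ1 ∧ s.ρ1 ≤ s.ρ2 ∧ s.ρ2 ≤ 1 / 16 ∧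
  10 ^ 4 * (s.m + 2) * (s.B + 2) * (s.H + 2) * s.δ ≤ s.ρ1 * s.ω ∧
  s.R.card * s.μ + s.m * s.ω = 1 ∧ (s.m : ℝ) * (s.ω + s.δ) * x.D + 2 ≤ s.ξ ∧
  s.ξ ≤ x.p ∧ 2 * s.ξ ≤ x.D ∧ (∀ y < s.m, s.part y < s.H) ∧ 1000 * s.μ ≤ s.ρ1 * s.ρ3

/-- VB: the fields on the reserved blocks -/
def S_VB : Prop := ∀ x : Prm, Par x → ∀ φ,
  let s := x.dat φ
  (∀ P < s.H, ∀ a ∈ s.R, ∀ β ∈ s.S P a,
    β < s.B ∧ Av s.st x.p a β ∧ β ∉ s.mm a ∧ β ≠ sm s.B a a ∧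
      s.Al x.D x.p (s.ty P) β ∧ β ∈ s.F P) ∧
  (∀ P < s.H, ∀ Q < s.H, P ≠ Q → ∀ a ∈ s.R, Disjoint (s.S P a) (s.S Q a)) ∧
  (∀ P < s.H, ∀ a ∈ s.R, ∀ b ∈ s.R,
    s.S P a = s.S P b ∨ Disjoint (s.S P a) (s.S P b)) ∧
  (∀ P < s.H, ∀ a ∈ s.R,
    ((s.R.filter fun b => s.S P b = s.S P a).card : ℝ) * (16 * s.ρ2 * s.μ) * x.D ≤
      (lab s.st (s.S P a)).card)

/-- VC: the fields on the blocks for the edges between special vertices -/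
def S_VC : Prop := ∀ x : Prm, Par x → ∀ φ,
  let s := x.dat φ
  (∀ P < s.H, ∀ Q < s.H, s.Φ P Q = s.Φ Q P) ∧
  (∀ P < s.H, ∀ Q < s.H, ∀ β ∈ s.Φ P Q,
    β < s.B ∧ s.Al x.D x.p (s.ty P) β ∧ β ∈ s.F P ∧ ∀ a ∈ s.R, β ∉ s.S P a) ∧
  (∀ P < s.H, ∀ Q < s.H,
    2 * (s.m * (s.ω + s.δ)) * x.D + 2 ≤ (lab s.st (s.Φ P Q)).card)

/-- VD: the fields on the service -/
def S_VD : Prop := ∀ x : Prm, Par x → ∀ φ, Ser x φ →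
  let s := x.dat φ
  (∀ y < s.m, ∀ a ∈ s.R, s.φ y a ∈ s.cls x.p a) ∧
  (∀ y < s.m, ∀ a ∈ s.R, ∀ b ∈ s.R, s.φ y a = s.φ y b → a = b) ∧
  (∀ y < s.m, ∀ a ∈ s.R, s.Al x.D x.p (s.ty (s.part y)) (s.φ y a)) ∧
  (∀ y < s.m, ∀ a ∈ s.R, s.φ y a ∉ s.F (s.part y))

/-- VE: free cells -/
def S_VE : Prop := ∀ x : Prm, Par x → ∀ φ, Ser x φ →
  let s := x.dat φ
  ∀ β < s.B, ∀ τ : Bool, s.ρ3 ≤ s.ω * ((range s.m).filter fun y =>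
    s.ty (s.part y) = τ ∧ β ∉ s.F (s.part y) ∧ ∀ a ∈ s.R, s.φ y a ≠ β).card

/-- VF: the surplus of a class -/
def S_VF : Prop := ∀ x : Prm, Par x → ∀ φ, Ser x φ →
  let s := x.dat φ
  ∀ a ∈ s.R, ∀ β ∈ s.cls x.p a, s.ρ1 * (s.ω * s.kt a β) ≤ s.lo x.D a β ∧
    s.lo x.D a β ≤ s.ρ2 * (s.ω * s.kt a β) ∧ 1 / (200 * x.L) * x.dem a β ≤ s.lo x.D a β

/-- VG: the surplus of a part -/
def S_VG : Prop := ∀ x : Prm, Par x → ∀ φ, Ser x φ →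
  let s := x.dat φ
  ∀ P < s.H, ∀ a ∈ s.R,
    |∑ β ∈ s.cls x.p a, s.lo x.D a β * (s.k P a β : ℝ) / s.kt a β -
      ((lab s.st (s.S P a)).card : ℝ) / x.D| ≤ s.e1

/-- VH: the hub -/
def S_VH : Prop := ∀ x : Prm, Par x → ∀ φ, Ser x φ →
  let s := x.dat φ
  (∀ a ∈ s.R, s.Hb a ⊆ s.cls x.p a) ∧
  (∀ a ∈ s.R, ∀ β ∈ s.Hb a, ∀ P < s.H, s.kt a β ≤ 8 * s.H * s.k P a β) ∧
  (∀ a ∈ s.R, 32 * s.H * (s.e1 + 40 * s.μ) ≤ ∑ β ∈ s.Hb a, s.lo x.D a β)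

/-- PAR: the choice of the parameters -/
def S_PAR : Prop := ∀ ε : ℝ, 0 < ε → ε ≤ 1 / 10 → ∃ (B0 m0 : ℕ) (δ : ℝ), 0 < δ ∧
  ∃ D0 : ℕ, ∀ D : ℕ, D0 ≤ D → ∀ p : ℕ, ε * D ≤ p → (p : ℝ) ≤ (1 / 2 - ε) * D →
    ∃ x : Prm, Par x ∧ x.D = D ∧ x.p = p ∧ x.δ = δ ∧ x.B ≤ B0 ∧ 2 * x.h * x.t ≤ m0

end Pool.Agent.H39.HW.Sc
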