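import Pool.Agent.H39.HW.SPar2
import Pool.Agent.H39.HW.SStm

set_option autoImplicit false
open Classical Finset

namespace Pool.Agent.H39.HW.Sc

open Pool.Agent.H39.HW

/-- the constants which depend on `ε` only -/
theorem consts (ε : ℝ) (hε : 0 < ε) (hε1 : ε ≤ 1 / 10) :
    ∃ (η : ℝ) (h L : ℕ) (a ζ : ℝ), η = ε / 10 ^ 4 ∧ 1000 ≤ ε * h ∧ L = 8 * h ^ 2 + 4 * h ∧
      1 ≤ η * L ∧ (8 * 10 ^ 8 : ℝ) ≤ L ∧ 0 < a ∧ a = η / (1000 * L) ∧ 0 < ζ ∧
      ζ = ε * a ^ 2 / (10 ^ 13 * (L : ℝ) ^ 4) ∧ ζ ≤ a ^ 2 / 10 ^ 3 ∧ (h : ℝ) ≤ L ∧ 1 ≤ h := by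
  obtain ⟨h, hh⟩ : ∃ h : ℕ, h = ⌈1000 / ε⌉₊ := ⟨_, rfl⟩
  have h1 : 1000 / ε ≤ h := by rw [hh]; exact Nat.le_ceil _
  have h2 : 1000 ≤ ε * h := by
    rw [div_le_iff₀ hε] at h1
    linarith
  have h3 : (10000 : ℝ) ≤ h := by
    have h0 : (0 : ℝ) ≤ h := Nat.cast_nonneg _
    have : ε * h ≤ 1 / 10 * h := mul_le_mul_of_nonneg_right hε1 h0
    linarith
  have h4 : (((8 * h ^ 2 + 4 * h : ℕ)) : ℝ) = 8 * (h : ℝ) ^ 2 + 4 * h := by push_cast; ring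
  have h5 : (10000 : ℝ) * h ≤ (h : ℝ) ^ 2 := by
    have := mul_le_mul_of_nonneg_right h3 (by linarith : (0 : ℝ) ≤ h)
    calc (10000 : ℝ) * h ≤ h * h := this
      _ = (h : ℝ) ^ 2 := by ring
  have h6 : (8 * 10 ^ 8 : ℝ) ≤ ((8 * h ^ 2 + 4 * h : ℕ) : ℝ) := by
    rw [h4]; linarith
  have h7 : (h : ℝ) ≤ ((8 * h ^ 2 + 4 * h : ℕ) : ℝ) := by
    rw [h4]; linarith
  obtain ⟨L, hL⟩ : ∃ L : ℕ, L = 8 * h ^ 2 + 4 * h := ⟨_, rfl⟩
  rw [← hL] at h4 h6 h7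
  have hL0 : (0 : ℝ) < L := by linarith
  have hη0 : 0 < ε / 10 ^ 4 := by positivity
  have ha0 : 0 < ε / 10 ^ 4 / (1000 * L) := by positivity
  refine ⟨ε / 10 ^ 4, h, L, ε / 10 ^ 4 / (1000 * L),
    ε * (ε / 10 ^ 4 / (1000 * L)) ^ 2 / (10 ^ 13 * (L : ℝ) ^ 4), rfl, h2, hL, ?_, h6, ha0, rfl,
    by positivity, rfl, ?_, h7, ?_⟩
  · rw [h4]
    have e : ε / 10 ^ 4 * (8 * (h : ℝ) ^ 2 + 4 * h) = 8 / 10 ^ 4 * ((ε * h) * h) + 4 / 10 ^ 4 * (ε * h) := by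
      ring
    rw [e]
    have : 1000 * (10000 : ℝ) ≤ (ε * h) * h := mul_le_mul h2 h3 (by norm_num) (by positivity)
    have : 0 ≤ ε * h := by positivity
    linarith
  · set a := ε / 10 ^ 4 / (1000 * (L : ℝ))
    have hL4 : (1 : ℝ) ≤ (L : ℝ) ^ 4 := one_le_pow₀ (by linarith)
    rw [div_le_div_iff₀ (by positivity) (by positivity)]
    have : ε * a ^ 2 * 10 ^ 3 ≤ 1 * a ^ 2 * 10 ^ 3 := by
      apply mul_le_mul_of_nonneg_right _ (by positivity)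
      exact mul_le_mul_of_nonneg_right (by linarith) (sq_nonneg _)
    have h10 : a ^ 2 * (10 ^ 13 * 1) ≤ a ^ 2 * (10 ^ 13 * (L : ℝ) ^ 4) := by
      apply mul_le_mul_of_nonneg_left _ (sq_nonneg _)
      linarith
    have : 0 ≤ a ^ 2 := sq_nonneg a
    linarith
  · have : (1 : ℝ) ≤ h := by linarith
    exact_mod_cast this

/-- real consequences -/
theorem realfacts (ε η L a ζ c ls ll m θ K J M g e h : ℝ) (hε : 0 < ε) (hε1 : ε ≤ 1 / 10)
    (hη : η = ε / 10 ^ 4) (hL : 8 * 10 ^ 8 ≤ L) (ha0 : 0 < a) (ha : a = η / (1000 * L))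
    (hζ0 : 0 < ζ) (hζ : ζ = ε * a ^ 2 / (10 ^ 13 * L ^ 4)) (hζ' : ζ ≤ a ^ 2 / 10 ^ 3)
    (hh0 : 0 ≤ h) (hhL : h ≤ L) (hh : 1000 ≤ ε * h)
    (hc1 : ε ≤ c) (hc2 : c ≤ 1 / 2 - ε) (hls0 : 0 < ls) (hll0 : 0 < ll) (hls : ls ≤ ζ / 10)
    (hll : ll ≤ ζ / 5) (hm0 : 0 < m) (hlsm : ls = (1 + 2 / 5 * a) * m)
    (hθa : |θ - a| ≤ 4 * a ^ 2) (hK : 0 ≤ K) (hJ : 0 ≤ J) (hM : 0 ≤ M) (he : 0 ≤ e)
    (hX : |(K - g) * ll - 3 / 5 * c * θ| ≤ η * θ) (hel : e * ll ≤ a ^ 2 + ll)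
    (hJ1 : 11 / 10 * a ≤ J * ls) (hJ2 : J * ls ≤ 11 / 10 * a + ζ)
    (hK1 : c ≤ K * ls) (hK2 : K * ls ≤ c + ζ)
    (hM2 : 1 - 2 * (J * ls) - ζ ≤ M * ll) (hg1 : c - ζ ≤ g * ll)
    (hll' : ll ≤ (1 + 3 / 5 * a) * ls + ζ * ls) :
    0 < θ ∧ 99 / 100 * a ≤ θ ∧ θ ≤ 101 / 100 * a ∧ θ ≤ η ∧ 10 * L * θ ≤ 1 ∧
    (e + 1) * m ≤ η * θ ∧ 4 * J + 4 ≤ K ∧ 2 * K + 2 * (K - g) + 4 * J + 4 ≤ M ∧
    10 ^ 9 * L ^ 4 * m ≤ ε * θ ∧ 1 / 2 * ε * a ≤ (K - g) * ll ∧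
    8 * (a * ε / 150000) + 8 * (e * ll) + 8 * ll ≤ 1 / 2 * ε * a ∧
    300 * h * L * ll ≤ a ∧ 2 * h * ll ≤ a / (10 ^ 6 * L) ∧ ε / (2 * K) ≤ m ∧ 0 < K := by
  obtain ⟨hη0, hη1, ha2, ha3, hζ1, haa, hζ2, haη, ha33⟩ :=
    P0.c1 ε η L a ζ hε hε1 hη hL ha0 ha.le hζ'
  have hL0 : (0 : ℝ) < L := by linarith
  have hθ1 := (abs_le.mp hθa).1
  have hθ2 := (abs_le.mp hθa).2
  have b1 : 99 / 100 * a ≤ θ := by linarith
  have b2 : θ ≤ 101 / 100 * a := by linarith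
  have b0 : 0 < θ := by linarith
  have hLa : L * a = η / 1000 := by
    rw [ha]; field_simp
  have hηθ : η * (99 / 100 * a) ≤ η * θ := mul_le_mul_of_nonneg_left b1 hη0.le
  have hηa : η * (99 / 100 * a) = 99 / 100 * (η * a) := by ring
  have hmls : m ≤ ls := by
    rw [hlsm]
    have : 0 ≤ 2 / 5 * a * m := by positivity
    linarith
  have hllls : ls ≤ ll ∨ ll ≤ ls := le_total _ _
  have hKpos : 0 < K := by
    rcases hK.lt_or_eq with h' | h'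
    · exact h'
    · rw [← h'] at hK1
      linarith
  have haε : a ≤ ε / 10 ^ 15 := by
    rw [hη] at ha2
    linarith
  have haaε : a ^ 2 ≤ ε * a / 10 ^ 15 := by
    have := mul_le_mul_of_nonneg_right haε ha0.le
    calc a ^ 2 = a * a := by ring
      _ ≤ ε / 10 ^ 15 * a := this
      _ = ε * a / 10 ^ 15 := by ring
  have hεa : 0 < ε * a := mul_pos hε ha0
  have hls1 : (1 + 3 / 5 * a) * ls + ζ * ls ≤ 2 * ls := by
    have h1 : 3 / 5 * a * ls ≤ 1 / 2 * ls := mul_le_mul_of_nonneg_right (by linarith) hls0.le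
    have h2 : ζ * ls ≤ 1 / 2 * ls := mul_le_mul_of_nonneg_right (by linarith) hls0.le
    have e : (1 + 3 / 5 * a) * ls = ls + 3 / 5 * a * ls := by ring
    linarith
  have hll2 : ll ≤ 2 * ls := by linarith
  -- L^2 ζ small
  have hLζ : L ^ 4 * ζ = ε * a ^ 2 / 10 ^ 13 := by
    rw [hζ]; field_simp
  have hL1 : 1 ≤ L := by linarith
  have hL2 : L ^ 2 ≤ L ^ 4 := pow_le_pow_right₀ hL1 (by norm_num)
  have hL2ζ : L ^ 2 * ζ ≤ ε * a ^ 2 / 10 ^ 13 := by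
    have := mul_le_mul_of_nonneg_right hL2 hζ0.le
    linarith
  have hεaa : ε * a ^ 2 ≤ a / 10 ^ 16 := by
    have h1 : ε * a ^ 2 ≤ 1 * a ^ 2 := mul_le_mul_of_nonneg_right (by linarith) (sq_nonneg a)
    linarith
  have hhL2 : h * L * ζ ≤ L ^ 2 * ζ := by
    have : h * L ≤ L * L := mul_le_mul_of_nonneg_right hhL hL0.le
    have := mul_le_mul_of_nonneg_right this hζ0.le
    calc h * L * ζ ≤ L * L * ζ := this
      _ = L ^ 2 * ζ := by ring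
  have hhLll : h * L * ll ≤ h * L * (ζ / 5) := mul_le_mul_of_nonneg_left hll (by positivity)
  have k1 : (K - g) * ll ≥ 1 / 2 * ε * a := by
    have h1 := (abs_le.mp hX).1
    have h2 : 3 / 5 * ε * θ ≤ 3 / 5 * c * θ := by
      apply mul_le_mul_of_nonneg_right _ b0.le
      linarith
    have h3 : 3 / 5 * ε * (99 / 100 * a) ≤ 3 / 5 * ε * θ := mul_le_mul_of_nonneg_left b1 (by positivity)
    have h4 : η * θ ≤ η * (101 / 100 * a) := mul_le_mul_of_nonneg_left b2 hη0.le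
    have h5 : η * (101 / 100 * a) = 101 / 10 ^ 6 * (ε * a) := by rw [hη]; ring
    have h6 : 3 / 5 * ε * (99 / 100 * a) = 297 / 500 * (ε * a) := by ring
    have h7 : 1 / 2 * ε * a = 1 / 2 * (ε * a) := by ring
    linarith
  refine ⟨b0, b1, b2, by linarith, ?_, ?_, ?_, ?_, ?_, k1, ?_, ?_, ?_, ?_, hKpos⟩
  · have : 10 * L * θ ≤ 10 * L * (101 / 100 * a) := mul_le_mul_of_nonneg_left b2 (by positivity)
    have e : 10 * L * (101 / 100 * a) = 101 / 10 * (L * a) := by ring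
    linarith
  · have h1 : e * m ≤ 2 * (e * ll) + e * m * 0 := by
      -- m ≤ ls and ls ≤ 2 ll is not known in general; use ll ≥ ls - ... from below
      have h2 : m ≤ 2 * ll := by
        -- K ls ≥ c and M ll ≥ 1/2 do not compare; use hM2 only through ll > 0
        by_contra hcon
        push Not at hcon
        -- then ll < ls / 2, but (K - g) ll ≤ K ll < K ls / 2 and g ll ≥ c - ζ
        have h3 : 2 * ll < ls := by linarith
        have h4 : K * (2 * ll) ≤ K * ls := mul_le_mul_of_nonneg_left h3.le hK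
        have h5 : (K - g) * ll = K * ll - g * ll := by ring
        have h6 : K * (2 * ll) = 2 * (K * ll) := by ring
        linarith
      have := mul_le_mul_of_nonneg_left h2 he
      linarith
    have e2 : (e + 1) * m = e * m + m := by ring
    linarith
  · have h1 : (4 * J + 4) * ls ≤ K * ls := by
      have e : (4 * J + 4) * ls = 4 * (J * ls) + 4 * ls := by ring
      linarith
    exact le_of_mul_le_mul_right h1 hls0
  · have h1 : K * ll ≤ K * ls + (a + ζ) := by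
      have h2 := mul_le_mul_of_nonneg_left hll' hK
      have e : K * ((1 + 3 / 5 * a) * ls + ζ * ls) = K * ls + (3 / 5 * a + ζ) * (K * ls) := by ring
      have h3 : (3 / 5 * a + ζ) * (K * ls) ≤ (3 / 5 * a + ζ) * 1 := by
        apply mul_le_mul_of_nonneg_left _ (by positivity)
        linarith
      linarith
    have h2 : J * ll ≤ 2 * (J * ls) := by
      have := mul_le_mul_of_nonneg_left hll2 hJ
      linarith
    have h3 : (2 * K + 2 * (K - g) + 4 * J + 4) * ll ≤ M * ll := by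
      have e : (2 * K + 2 * (K - g) + 4 * J + 4) * ll =
        4 * (K * ll) - 2 * (g * ll) + 4 * (J * ll) + 4 * ll := by ring
      linarith
    exact le_of_mul_le_mul_right h3 hll0
  · have h1 : 10 ^ 9 * L ^ 4 * m ≤ 10 ^ 9 * L ^ 4 * (ζ / 10) :=
      mul_le_mul_of_nonneg_left (by linarith) (by positivity)
    have e : 10 ^ 9 * L ^ 4 * (ζ / 10) = 10 ^ 8 * (L ^ 4 * ζ) := by ring
    have h2 : ε * (99 / 100 * a) ≤ ε * θ := mul_le_mul_of_nonneg_left b1 hε.le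
    have h3 : ε * a ^ 2 ≤ ε * a := by
      have : a ^ 2 ≤ a := by linarith
      exact mul_le_mul_of_nonneg_left this hε.le
    have e2 : ε * (99 / 100 * a) = 99 / 100 * (ε * a) := by ring
    linarith
  · have e : 8 * (a * ε / 150000) = 8 / 150000 * (ε * a) := by ring
    have e2 : 1 / 2 * ε * a = 1 / 2 * (ε * a) := by ring
    linarith
  · have e : 300 * h * L * ll = 300 * (h * L * ll) := by ring
    have e2 : h * L * (ζ / 5) = (h * L * ζ) / 5 := by ring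
    linarith
  · rw [le_div_iff₀ (by positivity)]
    have e : 2 * h * ll * (10 ^ 6 * L) = 2 * 10 ^ 6 * (h * L * ll) := by ring
    have e2 : h * L * (ζ / 5) = (h * L * ζ) / 5 := by ring
    rw [e]
    linarith
  · rw [div_le_iff₀ (by positivity)]
    have h1 : K * ls ≤ K * (2 * m) := by
      apply mul_le_mul_of_nonneg_left _ hK
      rw [hlsm]
      apply mul_le_mul_of_nonneg_right _ hm0.le
      linarith
    linarith

end Pool.Agent.H39.HW.Sc
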