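import Mathlib

set_option autoImplicit false

namespace Pool.Agent.H39.HW.Sc.P0

theorem c1 (ε η L a ζ : ℝ) (hε : 0 < ε) (hε1 : ε ≤ 1 / 10) (hη : η = ε / 10 ^ 4)
    (hL : 8 * 10 ^ 8 ≤ L) (ha0 : 0 < a) (ha : a ≤ η / (1000 * L)) (hζ : ζ ≤ a ^ 2 / 10 ^ 3) :
    0 < η ∧ η ≤ 1 / 10 ^ 5 ∧ 8 * 10 ^ 11 * a ≤ η ∧ a ≤ 1 / 10 ^ 16 ∧ 10 ^ 3 * ζ ≤ a ^ 2 ∧
    a ^ 2 ≤ a / 10 ^ 16 ∧ ζ ≤ a / 10 ^ 19 ∧ 8 * 10 ^ 11 * a ^ 2 ≤ η * a ∧ a ^ 3 ≤ a ^ 2 / 10 ^ 16 := by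
  have hη0 : 0 < η := by rw [hη]; positivity
  have hη1 : η ≤ 1 / 10 ^ 5 := by rw [hη]; linarith
  have ha1 : a ≤ η / (8 * 10 ^ 11) := by
    refine ha.trans ?_
    apply div_le_div_of_nonneg_left hη0.le (by positivity)
    linarith
  have ha2 : 8 * 10 ^ 11 * a ≤ η := by
    rw [le_div_iff₀ (by positivity)] at ha1
    linarith
  have ha3 : a ≤ 1 / 10 ^ 16 := by linarith
  have h4 : 10 ^ 3 * ζ ≤ a ^ 2 := by linarith
  have haa : a ^ 2 ≤ a / 10 ^ 16 := by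
    have := mul_le_mul_of_nonneg_right ha3 ha0.le
    calc a ^ 2 = a * a := by ring
      _ ≤ 1 / 10 ^ 16 * a := this
      _ = a / 10 ^ 16 := by ring
  refine ⟨hη0, hη1, ha2, ha3, h4, haa, by linarith, ?_, ?_⟩
  · have := mul_le_mul_of_nonneg_right ha2 ha0.le
    calc 8 * 10 ^ 11 * a ^ 2 = 8 * 10 ^ 11 * a * a := by ring
      _ ≤ η * a := this
  · have := mul_le_mul_of_nonneg_right ha3 (sq_nonneg a)
    calc a ^ 3 = a * a ^ 2 := by ring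
      _ ≤ 1 / 10 ^ 16 * a ^ 2 := this
      _ = a ^ 2 / 10 ^ 16 := by ring

/-- `ll` in terms of `m` -/
theorem c2 (a ζ ls ll m : ℝ) (ha0 : 0 < a) (ha3 : a ≤ 1 / 10 ^ 16) (hζ0 : 0 < ζ) (hm0 : 0 < m)
    (f4 : (1 + 3 / 5 * a) * ls - ζ * ls ≤ ll) (f4' : ll ≤ (1 + 3 / 5 * a) * ls + ζ * ls)
    (hm : ls = (1 + 2 / 5 * a) * m) :
    ll ≤ (1 + a + 6 / 25 * a ^ 2) * m + 2 * ζ * m ∧
    (1 + a + 6 / 25 * a ^ 2) * m - 2 * ζ * m ≤ ll := by
  have h1 : (1 + 3 / 5 * a) * ls = (1 + a + 6 / 25 * a ^ 2) * m := by rw [hm]; ring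
  have h2 : ζ * ls ≤ 2 * ζ * m := by
    have h3 : ls ≤ 2 * m := by
      rw [hm]
      apply mul_le_mul_of_nonneg_right _ hm0.le
      linarith
    calc ζ * ls ≤ ζ * (2 * m) := mul_le_mul_of_nonneg_left h3 hζ0.le
      _ = 2 * ζ * m := by ring
  rw [h1] at f4 f4'
  constructor <;> linarith

/-- `θ` -/
theorem c3 (a ζ A b G m θ : ℝ) (ha0 : 0 < a) (ha3 : a ≤ 1 / 10 ^ 16) (hζ0 : 0 < ζ)
    (hζ1 : 10 ^ 3 * ζ ≤ a ^ 2) (ha33 : a ^ 3 ≤ a ^ 2 / 10 ^ 16) (hm0 : 0 < m) (hmζ : m ≤ ζ)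
    (hb1 : b ≤ 6 / 5 * a) (hb0 : 0 ≤ b)
    (hG : G = 1 + a + 6 / 25 * a ^ 2)
    (h1 : G * A ≤ 1 - 2 * ((1 + 2 / 5 * a) * b) + 2 * ζ)
    (h2 : 1 - 2 * ((1 + 2 / 5 * a) * b) - 3 * ζ ≤ G * A)
    (hθ : θ = 1 - A - 2 * b + m) : |θ - a| ≤ 4 * a ^ 2 := by
  have hG1 : 1 ≤ G := by
    rw [hG]
    have := sq_nonneg a
    linarith
  have hG2 : G ≤ 2 := by
    rw [hG]
    have : a ^ 2 ≤ 1 := by
      calc a ^ 2 = a * a := by ring
        _ ≤ 1 * 1 := mul_le_mul (by linarith) (by linarith) ha0.le (by norm_num)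
        _ = 1 := by ring
    linarith
  have hba : b * a ≤ 6 / 5 * a ^ 2 := by
    calc b * a ≤ 6 / 5 * a * a := mul_le_mul_of_nonneg_right hb1 ha0.le
      _ = 6 / 5 * a ^ 2 := by ring
  have hba2 : 0 ≤ b * a := mul_nonneg hb0 ha0.le
  have hbaa : b * a ^ 2 ≤ a ^ 2 := by
    have : b ≤ 1 := by linarith
    have := mul_le_mul_of_nonneg_right this (sq_nonneg a)
    linarith
  have hbaa2 : 0 ≤ b * a ^ 2 := mul_nonneg hb0 (sq_nonneg a)
  have ha30 : 0 ≤ a ^ 3 := by positivity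
  have e1 : (θ - a) * G = (G - 1 - a * G) - (G * A - 1) - 2 * b * G + m * G := by
    rw [hθ]; ring
  have e2 : G - 1 - a * G = -(19 / 25) * a ^ 2 - 6 / 25 * a ^ 3 := by rw [hG]; ring
  have e3 : 2 * b * G = 2 * b + 2 * (b * a) + 12 / 25 * (b * a ^ 2) := by rw [hG]; ring
  have e4 : 2 * ((1 + 2 / 5 * a) * b) = 2 * b + 4 / 5 * (b * a) := by ring
  have hmG : m * G ≤ 2 * ζ := by
    calc m * G ≤ ζ * 2 := mul_le_mul hmζ hG2 (by linarith) hζ0.le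
      _ = 2 * ζ := by ring
  have hmG0 : 0 ≤ m * G := by positivity
  rw [e4] at h1 h2
  rw [e2, e3] at e1
  have k1 : (θ - a) * G ≤ 4 * a ^ 2 := by linarith
  have k2 : -(4 * a ^ 2) ≤ (θ - a) * G := by linarith
  have hs : 0 < a ^ 2 := by positivity
  rw [abs_le]
  constructor
  · by_contra h
    push Not at h
    have : (θ - a) * G ≤ (θ - a) * 1 := by
      apply mul_le_mul_of_nonpos_left hG1
      linarith
    linarith
  · by_contra h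
    push Not at h
    have : (θ - a) * 1 ≤ (θ - a) * G := by
      apply mul_le_mul_of_nonneg_left hG1
      linarith
    linarith

/-- the real inequalities behind the choice of the parameters -/
theorem core (ε η L a ζ c ls ll K J M g m θ : ℝ)
    (hε : 0 < ε) (hε1 : ε ≤ 1 / 10) (hη : η = ε / 10 ^ 4) (hL : 8 * 10 ^ 8 ≤ L)
    (ha0 : 0 < a) (ha : a ≤ η / (1000 * L)) (hζ0 : 0 < ζ) (hζ : ζ ≤ a ^ 2 / 10 ^ 3)
    (hls : 0 < ls) (hK : 0 ≤ K) (hJ : 0 ≤ J) (hM : 0 ≤ M)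
    (hc1 : ε ≤ c) (hc2 : c ≤ 1 / 2 - ε)
    (f1 : c ≤ K * ls) (f1' : K * ls ≤ c + ζ)
    (f2' : J * ls ≤ 11 / 10 * a + ζ)
    (f3 : 1 - 2 * (J * ls) - ζ ≤ M * ll) (f3' : M * ll ≤ 1 - 2 * (J * ls))
    (f4 : (1 + 3 / 5 * a) * ls - ζ * ls ≤ ll) (f4' : ll ≤ (1 + 3 / 5 * a) * ls + ζ * ls)
    (f5 : c - ζ ≤ g * ll) (f5' : g * ll ≤ c + ζ) (f6 : ls ≤ ζ)
    (hm : ls = (1 + 2 / 5 * a) * m) (hθ : θ = 1 - (M + 2 * J - 1) * m) :
    0 < m ∧ |θ - a| ≤ 4 * a ^ 2 ∧ |ls - m - 2 / 5 * θ * m| ≤ η * θ * m ∧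
    |ll - m - θ * m| ≤ η * θ * m ∧ |K * m - c| ≤ η ∧ |M * m - 1| ≤ η ∧ J * m ≤ η ∧
    |(K - g) * ll - 3 / 5 * c * θ| ≤ η * θ ∧ J * m ≤ 6 / 5 * a := by
  obtain ⟨hη0, hη1, ha2, ha3, hζ1, haa, hζ2, haη, ha33⟩ := c1 ε η L a ζ hε hε1 hη hL ha0 ha hζ
  clear hη hL ha hζ
  have hm0 : 0 < m := by
    by_contra h
    push Not at h
    have : (1 + 2 / 5 * a) * m ≤ 0 := mul_nonpos_of_nonneg_of_nonpos (by linarith) h
    linarith
  have hmls : m ≤ ls := by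
    rw [hm]
    have : 0 ≤ 2 / 5 * a * m := by positivity
    linarith
  have hmζ : m ≤ ζ := hmls.trans f6
  obtain ⟨hd1, hd2⟩ := c2 a ζ ls ll m ha0 ha3 hζ0 hm0 f4 f4' hm
  -- J m
  obtain ⟨b, hb⟩ : ∃ b, b = J * m := ⟨_, rfl⟩
  have hb0 : 0 ≤ b := by rw [hb]; exact mul_nonneg hJ hm0.le
  have hJls : J * ls = (1 + 2 / 5 * a) * b := by rw [hm, hb]; ring
  have hab : 0 ≤ a * b := mul_nonneg ha0.le hb0
  have hb1' : b ≤ 6 / 5 * a := by
    have : (1 + 2 / 5 * a) * b = b + 2 / 5 * (a * b) := by ring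
    linarith
  -- M m
  obtain ⟨A, hA⟩ : ∃ A, A = M * m := ⟨_, rfl⟩
  have hA0 : 0 ≤ A := by rw [hA]; exact mul_nonneg hM hm0.le
  have hAll1 : M * ll ≤ (1 + a + 6 / 25 * a ^ 2) * A + 2 * (ζ * A) := by
    have := mul_le_mul_of_nonneg_left hd1 hM
    calc M * ll ≤ M * ((1 + a + 6 / 25 * a ^ 2) * m + 2 * ζ * m) := this
      _ = (1 + a + 6 / 25 * a ^ 2) * A + 2 * (ζ * A) := by rw [hA]; ring
  have hAll2 : (1 + a + 6 / 25 * a ^ 2) * A - 2 * (ζ * A) ≤ M * ll := by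
    have := mul_le_mul_of_nonneg_left hd2 hM
    calc (1 + a + 6 / 25 * a ^ 2) * A - 2 * (ζ * A) =
          M * ((1 + a + 6 / 25 * a ^ 2) * m - 2 * ζ * m) := by
          rw [hA]; ring
      _ ≤ M * ll := this
  have haA : 0 ≤ a * A := mul_nonneg ha0.le hA0
  have haaA : 0 ≤ a ^ 2 * A := mul_nonneg (sq_nonneg a) hA0
  have hζaA : ζ * A ≤ a / 10 ^ 19 * A := mul_le_mul_of_nonneg_right hζ2 hA0
  have eG : (1 + a + 6 / 25 * a ^ 2) * A = A + a * A + 6 / 25 * (a ^ 2 * A) := by ring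
  have hJls0 : 0 ≤ J * ls := mul_nonneg hJ hls.le
  have hA1 : A ≤ 1 := by
    have : a / 10 ^ 19 * A = (a * A) / 10 ^ 19 := by ring
    linarith
  have hζA : ζ * A ≤ ζ := by
    have := mul_le_mul_of_nonneg_left hA1 hζ0.le
    linarith
  have hAG1 : (1 + a + 6 / 25 * a ^ 2) * A ≤ 1 - 2 * ((1 + 2 / 5 * a) * b) + 2 * ζ := by
    rw [hJls] at f3'
    linarith
  have hAG2 : 1 - 2 * ((1 + 2 / 5 * a) * b) - 3 * ζ ≤ (1 + a + 6 / 25 * a ^ 2) * A := by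
    rw [hJls] at f3
    linarith
  have hθ' : θ = 1 - A - 2 * b + m := by rw [hθ, hA, hb]; ring
  have hθa := c3 a ζ A b _ m θ ha0 ha3 hζ0 hζ1 ha33 hm0 hmζ hb1' hb0 rfl hAG1 hAG2 hθ'
  have hθ1 := (abs_le.mp hθa).1
  have hθ2 := (abs_le.mp hθa).2
  have hθlo : 99 / 100 * a ≤ θ := by linarith
  have hθhi : θ ≤ 101 / 100 * a := by linarith
  have hθ0 : 0 < θ := by linarith
  have hηθ : η * (99 / 100 * a) ≤ η * θ := mul_le_mul_of_nonneg_left hθlo hη0.le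
  have hηa : η * (99 / 100 * a) = 99 / 100 * (η * a) := by ring
  have hηm : η * (99 / 100 * a) * m ≤ η * θ * m := mul_le_mul_of_nonneg_right hηθ hm0.le
  refine ⟨hm0, hθa, ?_, ?_, ?_, ?_, ?_, ?_, ?_⟩
  · have e5 : ls - m - 2 / 5 * θ * m = (2 / 5 * (a - θ)) * m := by rw [hm]; ring
    rw [e5]
    refine le_trans ?_ hηm
    rw [abs_mul, abs_of_pos hm0]
    apply mul_le_mul_of_nonneg_right _ hm0.le
    rw [abs_le]
    constructor <;> linarith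
  · refine le_trans ?_ hηm
    rw [abs_le]
    constructor
    · have h3 : -(η * (99 / 100 * a)) ≤ (a - θ) + 6 / 25 * a ^ 2 - 2 * ζ := by linarith
      have h4 := mul_le_mul_of_nonneg_right h3 hm0.le
      have e6 : ((a - θ) + 6 / 25 * a ^ 2 - 2 * ζ) * m =
        (1 + a + 6 / 25 * a ^ 2) * m - 2 * ζ * m - m - θ * m := by ring
      linarith
    · have h3 : (a - θ) + 6 / 25 * a ^ 2 + 2 * ζ ≤ η * (99 / 100 * a) := by linarith
      have h4 := mul_le_mul_of_nonneg_right h3 hm0.le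
      have e6 : ((a - θ) + 6 / 25 * a ^ 2 + 2 * ζ) * m =
        (1 + a + 6 / 25 * a ^ 2) * m + 2 * ζ * m - m - θ * m := by ring
      linarith
  · have h1 : K * ls = K * m + 2 / 5 * (a * (K * m)) := by rw [hm]; ring
    rw [h1] at f1 f1'
    have hKm : 0 ≤ K * m := mul_nonneg hK hm0.le
    have h2' : 0 ≤ a * (K * m) := mul_nonneg ha0.le hKm
    have hKm1 : K * m ≤ 1 := by linarith
    have h2 : a * (K * m) ≤ a := by
      have := mul_le_mul_of_nonneg_left hKm1 ha0.le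
      linarith
    rw [abs_le]
    constructor <;> linarith
  · have h2 : a * A ≤ a := by
      have := mul_le_mul_of_nonneg_left hA1 ha0.le
      linarith
    have h3 : a ^ 2 * A ≤ a ^ 2 := by
      have := mul_le_mul_of_nonneg_left hA1 (sq_nonneg a)
      linarith
    have e7 : 2 * ((1 + 2 / 5 * a) * b) = 2 * b + 4 / 5 * (a * b) := by ring
    have h5 : a * b ≤ 6 / 5 * a ^ 2 := by
      calc a * b ≤ a * (6 / 5 * a) := mul_le_mul_of_nonneg_left hb1' ha0.le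
        _ = 6 / 5 * a ^ 2 := by ring
    rw [← hA, abs_le]
    constructor
    · linarith
    · linarith
  · rw [← hb]; linarith
  · -- (K - g) ll
    have h0 : 0 ≤ K * ls := mul_nonneg hK hls.le
    have h1 : K * ll ≤ K * ls + 3 / 5 * (a * (K * ls)) + ζ * (K * ls) := by
      have := mul_le_mul_of_nonneg_left f4' hK
      calc K * ll ≤ K * ((1 + 3 / 5 * a) * ls + ζ * ls) := this
        _ = _ := by ring
    have h2 : K * ls + 3 / 5 * (a * (K * ls)) - ζ * (K * ls) ≤ K * ll := by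
      have := mul_le_mul_of_nonneg_left f4 hK
      calc K * ls + 3 / 5 * (a * (K * ls)) - ζ * (K * ls) = K * ((1 + 3 / 5 * a) * ls - ζ * ls) := by ring
        _ ≤ _ := this
    have h3 : K * ls ≤ 1 := by linarith
    have h4 : ζ * (K * ls) ≤ ζ := by
      have := mul_le_mul_of_nonneg_left h3 hζ0.le
      linarith
    have h40 : 0 ≤ ζ * (K * ls) := mul_nonneg hζ0.le h0
    have h5 : a * (K * ls) ≤ a * c + ζ := by
      have h51 := mul_le_mul_of_nonneg_left f1' ha0.le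
      have h52 : a * (c + ζ) = a * c + a * ζ := by ring
      have h53 : a * ζ ≤ 1 * ζ := mul_le_mul_of_nonneg_right (by linarith) hζ0.le
      linarith
    have h6 : a * c ≤ a * (K * ls) := mul_le_mul_of_nonneg_left f1 ha0.le
    have h7 : |3 / 5 * c * θ - 3 / 5 * c * a| ≤ 4 * a ^ 2 := by
      have : 3 / 5 * c * θ - 3 / 5 * c * a = 3 / 5 * c * (θ - a) := by ring
      rw [this, abs_mul, abs_of_nonneg (by linarith)]
      calc 3 / 5 * c * |θ - a| ≤ 1 * |θ - a| := by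
            apply mul_le_mul_of_nonneg_right _ (abs_nonneg _)
            linarith
        _ ≤ 4 * a ^ 2 := by linarith
    have h8 := (abs_le.mp h7).1
    have h9 := (abs_le.mp h7).2
    have e8 : (K - g) * ll = K * ll - g * ll := by ring
    have e9 : 3 / 5 * c * a = 3 / 5 * (a * c) := by ring
    rw [e8, abs_le]
    constructor
    · linarith
    · linarith
  · rw [← hb]; exact hb1'

end Pool.Agent.H39.HW.Sc.P0
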