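import Mathlib

set_option autoImplicit false

namespace Pool.Agent.H39.HW.Sc.P0

/-- ceiling division -/
theorem ceil_div (x K : ℕ) (hK : 1 ≤ K) :
    x ≤ K * ((x + K - 1) / K) ∧ K * ((x + K - 1) / K) + 1 ≤ x + K := by
  have h1 := Nat.div_mul_le_self (x + K - 1) K
  have h2 := Nat.lt_mul_div_succ (x + K - 1) (by omega : 0 < K)
  have h3 : K * ((x + K - 1) / K + 1) = K * ((x + K - 1) / K) + K := by ring
  rw [h3] at h2
  rw [mul_comm] at h1
  constructor <;> omega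

theorem nat_g (p v : ℕ) (hv : 1 ≤ v) (hp : 2 ≤ p) :
    1 ≤ (p - 1 + v - 1) / v ∧ p ≤ (p - 1 + v - 1) / v * v + 1 ∧
      ((p - 1 + v - 1) / v - 1) * v + 1 < p ∧ (p - 1 + v - 1) / v * v + 2 ≤ p + v := by
  obtain ⟨h1, h2⟩ := ceil_div (p - 1) v hv
  generalize (p - 1 + v - 1) / v = g at *
  have h3 : v * g = g * v := mul_comm _ _
  rw [h3] at h1 h2
  have hg : 1 ≤ g := by
    rcases Nat.eq_zero_or_pos g with h | h
    · rw [h] at h1
      omega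
    · exact h
  have h4 : (g - 1) * v = g * v - v := by
    rw [Nat.sub_mul, one_mul]
  have h5 : v ≤ g * v := Nat.le_mul_of_pos_left v hg
  refine ⟨hg, by omega, ?_, by omega⟩
  rw [h4]
  omega

/-- facts on `w` and `ls = w / D` -/
theorem pw (ε ζ : ℝ) (D p K w : ℕ) (hε : 0 < ε) (hζ0 : 0 < ζ) (hζ1 : ζ ≤ 1)
    (hK : 10 / ζ ≤ K) (hK1 : 1 ≤ K)
    (hD : 40 * (K : ℝ) * (K + 1) / (ε * ζ) ≤ D) (hε1 : ε ≤ 1 / 10) (hD1 : 1 ≤ D)
    (hp1 : ε * D ≤ p) (hp2 : (p : ℝ) ≤ (1 / 2 - ε) * D)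
    (hw1 : p ≤ K * w) (hw2 : K * w + 1 ≤ p + K) :
    K + 1 ≤ w ∧ 4 / ζ ≤ w ∧ 0 < (w : ℝ) / D ∧ (p : ℝ) / D ≤ K * ((w : ℝ) / D) ∧
      K * ((w : ℝ) / D) ≤ (p : ℝ) / D + ζ / 40 ∧ (w : ℝ) / D ≤ ζ / 10 ∧
      (w : ℝ) / D ≤ 1 / K ∧ (K : ℝ) / D ≤ ζ / 40 := by
  have hD0 : (0 : ℝ) < D := by exact_mod_cast hD1
  have hK0 : (0 : ℝ) < K := by exact_mod_cast hK1
  have h1 : (p : ℝ) ≤ K * w := by exact_mod_cast hw1
  have h2 : (K : ℝ) * w + 1 ≤ p + K := by exact_mod_cast hw2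
  have hD' : 40 * (K : ℝ) * (K + 1) ≤ D * (ε * ζ) := by
    rwa [div_le_iff₀ (by positivity)] at hD
  have h3 : 40 * (K : ℝ) * (K + 1) ≤ p * ζ := by
    calc 40 * (K : ℝ) * (K + 1) ≤ D * (ε * ζ) := hD'
      _ = (ε * D) * ζ := by ring
      _ ≤ p * ζ := mul_le_mul_of_nonneg_right hp1 hζ0.le
  have h4 : 40 * (K + 1 : ℝ) ≤ w * ζ := by
    have : 40 * (K : ℝ) * (K + 1) ≤ K * (w * ζ) := by
      calc 40 * (K : ℝ) * (K + 1) ≤ p * ζ := h3
        _ ≤ (K * w) * ζ := mul_le_mul_of_nonneg_right h1 hζ0.le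
        _ = K * (w * ζ) := by ring
    have h5 : (K : ℝ) * (40 * (K + 1)) ≤ K * (w * ζ) := by linarith
    exact le_of_mul_le_mul_left h5 hK0
  have hw0 : (0 : ℝ) ≤ w := Nat.cast_nonneg _
  have h5 : (w : ℝ) * ζ ≤ w := by
    calc (w : ℝ) * ζ ≤ w * 1 := mul_le_mul_of_nonneg_left hζ1 hw0
      _ = w := mul_one _
  have h6 : (K + 1 : ℝ) ≤ w := by linarith
  have hwpos : (0 : ℝ) < w := by linarith
  have hKD : (K : ℝ) / D ≤ ζ / 40 := by
    rw [div_le_div_iff₀ hD0 (by norm_num)]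
    have : D * (ε * ζ) ≤ D * ζ := by
      apply mul_le_mul_of_nonneg_left _ hD0.le
      calc ε * ζ ≤ 1 * ζ := mul_le_mul_of_nonneg_right (by linarith) hζ0.le
        _ = ζ := one_mul _
    have h7 : 40 * (K : ℝ) ≤ 40 * (K : ℝ) * (K + 1) := by
      have : 0 ≤ 40 * (K : ℝ) * K := by positivity
      linarith
    linarith
  have hKw : K * ((w : ℝ) / D) = (K * w) / D := by ring
  have h8 : K * ((w : ℝ) / D) ≤ (p : ℝ) / D + (K : ℝ) / D := by
    rw [hKw, ← add_div]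
    apply div_le_div_of_nonneg_right _ hD0.le
    linarith
  have hpD : (p : ℝ) / D ≤ 1 / 2 := by
    rw [div_le_iff₀ hD0]
    have : (1 / 2 - ε) * D ≤ 1 / 2 * D := mul_le_mul_of_nonneg_right (by linarith) hD0.le
    linarith
  have hK' : (K : ℝ) * ζ ≥ 10 := by
    rw [ge_iff_le, ← div_le_iff₀ hζ0]
    exact hK
  have h9 : K * ((w : ℝ) / D) ≤ 1 := by linarith
  have h10 : (w : ℝ) / D ≤ 1 / K := by
    rw [le_div_iff₀ hK0, mul_comm]
    exact h9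
  have h11 : (1 : ℝ) / K ≤ ζ / 10 := by
    rw [div_le_div_iff₀ hK0 (by norm_num)]
    linarith
  refine ⟨by exact_mod_cast h6, ?_, by positivity, ?_, by linarith, by linarith, h10, hKD⟩
  · rw [div_le_iff₀ hζ0]
    linarith
  · rw [hKw]
    exact div_le_div_of_nonneg_right h1 hD0.le

/-- facts on `M` and `v` -/
theorem pv (a ζ : ℝ) (D Y M w v : ℕ) (hD1 : 1 ≤ D) (ha0 : 0 < a) (ha1 : a ≤ 1 / 10)
    (hζ0 : 0 < ζ) (hζ1 : ζ ≤ a / 10)
    (hw : 4 / ζ ≤ w) (hls : (w : ℝ) / D ≤ ζ / 10) (hY1 : (1 / 2 : ℝ) * D ≤ Y) (hY2 : Y ≤ D)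
    (hM : M = ⌊(Y : ℝ) / ((1 + 3 / 5 * a) * w)⌋₊) (hv : v = Y / M) :
    1 ≤ M ∧ M * v ≤ Y ∧ Y < M * v + M ∧ (M : ℝ) / D ≤ ζ / 4 ∧
      (1 + 3 / 5 * a) * ((w : ℝ) / D) - ζ * ((w : ℝ) / D) ≤ (v : ℝ) / D ∧
      (v : ℝ) / D ≤ (1 + 3 / 5 * a) * ((w : ℝ) / D) + ζ * ((w : ℝ) / D) ∧ w < v ∧
      (M : ℝ) * w ≤ D := by
  have hD0 : (0 : ℝ) < D := by exact_mod_cast hD1
  have hw' : 4 ≤ (w : ℝ) * ζ := by
    rwa [div_le_iff₀ hζ0] at hw
  have hw0 : (0 : ℝ) < w := by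
    by_contra h
    push Not at h
    have : (w : ℝ) * ζ ≤ 0 := mul_nonpos_of_nonpos_of_nonneg h hζ0.le
    linarith
  have hls' : (w : ℝ) ≤ ζ / 10 * D := by
    rwa [div_le_iff₀ hD0] at hls
  set r : ℝ := (1 + 3 / 5 * a) * w with hr
  have hr0 : 0 < r := by positivity
  have hr1 : r ≤ 2 * w := by
    rw [hr]
    apply mul_le_mul_of_nonneg_right _ hw0.le
    linarith
  have hwr : (w : ℝ) ≤ r := by
    rw [hr]
    have : 0 ≤ 3 / 5 * a * w := by positivity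
    linarith
  have hY0 : (0 : ℝ) < Y := by linarith
  have hYr : 0 ≤ (Y : ℝ) / r := by positivity
  have hM1 : (M : ℝ) ≤ Y / r := by
    rw [hM]
    exact Nat.floor_le hYr
  have hM2 : (Y : ℝ) / r < M + 1 := by
    rw [hM]
    exact Nat.lt_floor_add_one _
  have hM1' : (M : ℝ) * r ≤ Y := by
    rwa [le_div_iff₀ hr0] at hM1
  have hM2' : (Y : ℝ) < (M + 1) * r := by
    rwa [div_lt_iff₀ hr0] at hM2
  have hζ2 : ζ ≤ 1 / 100 := by linarith
  -- M is large: M * (2 w) ≥ D / 4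
  have hMw : (D : ℝ) / 4 ≤ M * (2 * w) := by
    have h1 : (M + 1) * r ≤ (M + 1) * (2 * w) := mul_le_mul_of_nonneg_left hr1 (by positivity)
    have h2 : 2 * (w : ℝ) ≤ D / 4 := by
      have : ζ / 10 * D ≤ 1 / 8 * D := mul_le_mul_of_nonneg_right (by linarith) hD0.le
      linarith
    have h3 : ((M : ℝ) + 1) * (2 * w) = M * (2 * w) + 2 * w := by ring
    linarith
  have hMpos : (0 : ℝ) < M := by
    by_contra h
    push Not at h
    have : (M : ℝ) * (2 * w) ≤ 0 := mul_nonpos_of_nonpos_of_nonneg h (by positivity)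
    linarith
  have hM1n : 1 ≤ M := by
    have : 0 < M := by exact_mod_cast hMpos
    omega
  have hv1 : M * v ≤ Y := by
    rw [hv, mul_comm]
    exact Nat.div_mul_le_self Y M
  have hv2 : Y < M * v + M := by
    rw [hv]
    have := Nat.lt_mul_div_succ Y (by omega : 0 < M)
    have h3 : M * (Y / M + 1) = M * (Y / M) + M := by ring
    rw [h3] at this
    exact this
  have hv1' : (M : ℝ) * v ≤ Y := by exact_mod_cast hv1
  have hv2' : (Y : ℝ) < M * v + M := by exact_mod_cast hv2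
  have hMwD : (M : ℝ) * w ≤ D := by
    have h1 : (M : ℝ) * w ≤ M * r := mul_le_mul_of_nonneg_left hwr hMpos.le
    have h2 : (Y : ℝ) ≤ D := by exact_mod_cast hY2
    linarith
  -- v > r - 1
  have hvlo : r - 1 < v := by
    have : (M : ℝ) * r < M * (v + 1) := by
      have : (M : ℝ) * (v + 1) = M * v + M := by ring
      linarith
    have := lt_of_mul_lt_mul_left this hMpos.le
    linarith
  -- v ≤ r + r / M
  have hvhi : (v : ℝ) ≤ r + r / M := by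
    have : (M : ℝ) * v ≤ M * (r + r / M) := by
      have : (M : ℝ) * (r + r / M) = (M + 1) * r := by
        field_simp
      linarith
    exact le_of_mul_le_mul_left this hMpos
  have hrM : r / M ≤ ζ * w := by
    rw [div_le_iff₀ hMpos]
    -- r ≤ 2 w, ζ w M ≥ ζ D / 8 ≥ 10 w / 8 ...
    have h1 : ζ * D / 8 ≤ ζ * w * M := by
      have := mul_le_mul_of_nonneg_left hMw hζ0.le
      have e : ζ * (M * (2 * w)) = 2 * (ζ * w * M) := by ring
      linarith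
    have h2 : 10 * (w : ℝ) ≤ ζ * D := by linarith
    -- need r ≤ ζ w M; we have r ≤ (1 + 3a/5) w ≤ 1.06 w ≤ 10/8 w
    have h3 : r ≤ 107 / 100 * w := by
      rw [hr]
      apply mul_le_mul_of_nonneg_right _ hw0.le
      linarith
    linarith
  have hwv : (w : ℝ) < v := by
    -- r - 1 ≥ w + 3/5 a w - 1, and a w ≥ 10 ζ w ≥ 40
    have h1 : ζ * w ≤ a / 10 * w := mul_le_mul_of_nonneg_right hζ1 hw0.le
    have h2 : r = w + 3 / 5 * (a * w) := by rw [hr]; ring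
    have h3 : a / 10 * w = (a * w) / 10 := by ring
    have h4 : (w : ℝ) * ζ = ζ * w := mul_comm _ _
    linarith
  refine ⟨hM1n, hv1, hv2, ?_, ?_, ?_, by exact_mod_cast hwv, hMwD⟩
  · rw [div_le_iff₀ hD0]
    have h1 : (M : ℝ) * 4 ≤ M * (w * ζ) := mul_le_mul_of_nonneg_left hw' hMpos.le
    have h2 : (M : ℝ) * (w * ζ) = (M * w) * ζ := by ring
    have h3 : (M * w) * ζ ≤ D * ζ := mul_le_mul_of_nonneg_right hMwD hζ0.le
    linarith
  · have h1 : (1 + 3 / 5 * a) * ((w : ℝ) / D) - ζ * ((w : ℝ) / D) = (r - ζ * w) / D := by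
      rw [hr]; ring
    rw [h1]
    apply div_le_div_of_nonneg_right _ hD0.le
    have : (1 : ℝ) ≤ ζ * w := by linarith [mul_comm (w : ℝ) ζ]
    linarith
  · have h1 : (1 + 3 / 5 * a) * ((w : ℝ) / D) + ζ * ((w : ℝ) / D) = (r + ζ * w) / D := by
      rw [hr]; ring
    rw [h1]
    apply div_le_div_of_nonneg_right _ hD0.le
    linarith

end Pool.Agent.H39.HW.Sc.P0
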