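import Pool.Agent.H39.HW.SPar0
import Pool.Agent.H39.HW.SPar1

set_option autoImplicit false

namespace Pool.Agent.H39.HW.Sc.P0

/-- everything about the choice of `w J M v g` for given `D`, `p` -/
theorem choice (ε η L a ζ : ℝ) (K : ℕ) (hε : 0 < ε) (hε1 : ε ≤ 1 / 10) (hη : η = ε / 10 ^ 4)
    (hL : 8 * 10 ^ 8 ≤ L) (ha0 : 0 < a) (ha : a ≤ η / (1000 * L)) (hζ0 : 0 < ζ)
    (hζ : ζ ≤ a ^ 2 / 10 ^ 3) (hK : 10 / ζ ≤ K) (hK1 : 1 ≤ K)
    (D p : ℕ) (hD : 40 * (K : ℝ) * (K + 1) / (ε * ζ) ≤ D) (hD1 : 1 ≤ D)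
    (hp1 : ε * D ≤ p) (hp2 : (p : ℝ) ≤ (1 / 2 - ε) * D) :
    ∃ w J M v g e : ℕ, 1 ≤ J ∧ 1 ≤ w ∧ w < v ∧ p ≤ K * w ∧ (K - 1) * w + 2 ≤ p ∧
      1 ≤ g ∧ g ≤ K ∧ p ≤ g * v + 1 ∧ (g - 1) * v + 1 < p ∧ J * (v - w) ≤ e * v ∧
      2 * (K + J) * w + M * v ≤ D + 2 * p ∧ D + 2 * p < 2 * (K + J) * w + M * v + M ∧
      ∃ ls ll m θ : ℝ, ls = (w : ℝ) / D ∧ ll = (v : ℝ) / D ∧ ls = (1 + 2 / 5 * a) * m ∧
      θ = 1 - ((M : ℝ) + 2 * J - 1) * m ∧ 0 < ls ∧ 0 < ll ∧ ls ≤ ζ / 10 ∧ ll ≤ ζ / 5 ∧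
      0 < m ∧ |θ - a| ≤ 4 * a ^ 2 ∧ |ls - m - 2 / 5 * θ * m| ≤ η * θ * m ∧
      |ll - m - θ * m| ≤ η * θ * m ∧ |K * m - (p : ℝ) / D| ≤ η ∧ |M * m - 1| ≤ η ∧ J * m ≤ η ∧
      |(K - g) * ll - 3 / 5 * ((p : ℝ) / D) * θ| ≤ η * θ ∧
      (e : ℝ) * ll ≤ a ^ 2 + ll ∧ 11 / 10 * a ≤ J * ls ∧ J * ls ≤ 11 / 10 * a + ζ ∧
      (p : ℝ) / D ≤ K * ls ∧ K * ls ≤ (p : ℝ) / D + ζ ∧ (M : ℝ) * w ≤ D ∧
      M * ll ≤ 1 - 2 * (J * ls) ∧ 1 - 2 * (J * ls) - ζ ≤ M * ll ∧ (p : ℝ) / D - ζ ≤ g * ll ∧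
      ll ≤ (1 + 3 / 5 * a) * ls + ζ * ls := by
  obtain ⟨hη0, hη1, ha2, ha3, hζ1, haa, hζ2, haη, ha33⟩ := c1 ε η L a ζ hε hε1 hη hL ha0 ha hζ
  have hD0 : (0 : ℝ) < D := by exact_mod_cast hD1
  have hK0 : (0 : ℝ) < K := by exact_mod_cast hK1
  obtain ⟨w, hw⟩ : ∃ w, w = (p + K - 1) / K := ⟨_, rfl⟩
  obtain ⟨hw1, hw2⟩ := ceil_div p K hK1
  rw [← hw] at hw1 hw2
  obtain ⟨q1, q2, q3, q4, q5, q6, q7, q8⟩ := pw ε ζ D p K w hε hζ0 (by linarith) hK hK1 hD hε1 hD1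
    hp1 hp2 hw1 hw2
  obtain ⟨ls, hls⟩ : ∃ ls : ℝ, ls = (w : ℝ) / D := ⟨_, rfl⟩
  rw [← hls] at q3 q4 q5 q6 q7
  -- J
  obtain ⟨J, hJ⟩ : ∃ J : ℕ, J = ⌈(11 / 10 * a) / ls⌉₊ := ⟨_, rfl⟩
  have hJ1 : (11 / 10 * a) / ls ≤ J := by rw [hJ]; exact Nat.le_ceil _
  have hJ2 : (J : ℝ) < (11 / 10 * a) / ls + 1 := by
    rw [hJ]
    exact Nat.ceil_lt_add_one (by positivity)
  have f2 : 11 / 10 * a ≤ J * ls := by
    rwa [div_le_iff₀ q3] at hJ1
  have f2'' : J * ls ≤ 11 / 10 * a + ls := by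
    have := mul_le_mul_of_nonneg_right hJ2.le q3.le
    have e : ((11 / 10 * a) / ls + 1) * ls = 11 / 10 * a + ls := by
      field_simp
    linarith
  have hJ0 : 1 ≤ J := by
    have : (0 : ℝ) < J := lt_of_lt_of_le (by positivity) hJ1
    have : 0 < J := by exact_mod_cast this
    omega
  have hwD : (w : ℝ) = ls * D := by
    rw [hls]; field_simp
  have hpD : (p : ℝ) = ((p : ℝ) / D) * D := by field_simp
  obtain ⟨c, hc⟩ : ∃ c : ℝ, c = (p : ℝ) / D := ⟨_, rfl⟩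
  rw [← hc] at q4 q5 hpD
  have hc1 : ε ≤ c := by
    rw [hc, le_div_iff₀ hD0]
    exact hp1
  have hc2 : c ≤ 1 / 2 - ε := by
    rw [hc, div_le_iff₀ hD0]
    exact hp2
  -- Y
  have hYr : ((2 * (K + J) * w : ℕ) : ℝ) = (2 * (K * ls) + 2 * (J * ls)) * D := by
    push_cast
    rw [hwD]
    ring
  have hYle : 2 * (K + J) * w ≤ D + 2 * p := by
    have : ((2 * (K + J) * w : ℕ) : ℝ) ≤ ((D + 2 * p : ℕ) : ℝ) := by
      rw [hYr]
      push_cast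
      rw [hpD]
      have e : (D : ℝ) + 2 * (c * D) = (1 + 2 * c) * D := by ring
      rw [e]
      apply mul_le_mul_of_nonneg_right _ hD0.le
      linarith
    exact_mod_cast this
  obtain ⟨Y, hY⟩ : ∃ Y : ℕ, Y = D + 2 * p - 2 * (K + J) * w := ⟨_, rfl⟩
  have hYs : 2 * (K + J) * w + Y = D + 2 * p := by omega
  have hYR : (Y : ℝ) = (1 + 2 * c - 2 * (K * ls) - 2 * (J * ls)) * D := by
    have : ((2 * (K + J) * w : ℕ) : ℝ) + Y = D + 2 * p := by exact_mod_cast hYs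
    rw [hYr] at this
    rw [hpD] at this
    linarith
  have hY1 : (1 / 2 : ℝ) * D ≤ Y := by
    rw [hYR]
    apply mul_le_mul_of_nonneg_right _ hD0.le
    linarith
  have hY2r : (Y : ℝ) ≤ (1 - 2 * (J * ls)) * D := by
    rw [hYR]
    apply mul_le_mul_of_nonneg_right _ hD0.le
    linarith
  have hY3r : (1 - 2 * (J * ls) - ζ / 20) * D ≤ (Y : ℝ) := by
    rw [hYR]
    apply mul_le_mul_of_nonneg_right _ hD0.le
    linarith
  have hY2 : Y ≤ D := by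
    have : (Y : ℝ) ≤ D := by
      have h1 : (1 - 2 * (J * ls)) * (D : ℝ) ≤ 1 * D := by
        apply mul_le_mul_of_nonneg_right _ hD0.le
        linarith
      linarith
    exact_mod_cast this
  obtain ⟨M, hM⟩ : ∃ M : ℕ, M = ⌊(Y : ℝ) / ((1 + 3 / 5 * a) * w)⌋₊ := ⟨_, rfl⟩
  obtain ⟨v, hv⟩ : ∃ v : ℕ, v = Y / M := ⟨_, rfl⟩
  have q6' := q6
  rw [hls] at q6'
  obtain ⟨r1, r2, r3, r4, r5, r6, r7, r8⟩ := pv a ζ D Y M w v hD1 ha0 (by linarith) hζ0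
    (by linarith) q2 q6' hY1 hY2 hM hv
  obtain ⟨ll, hll⟩ : ∃ ll : ℝ, ll = (v : ℝ) / D := ⟨_, rfl⟩
  rw [← hls, ← hll] at r5 r6
  have hvD : (v : ℝ) = ll * D := by
    rw [hll]; field_simp
  have hll0 : 0 < ll := by
    rw [hll]
    have : 0 < v := by omega
    have : (0 : ℝ) < v := by exact_mod_cast this
    positivity
  have hll1 : ll ≤ ζ / 5 := by
    have h1 : 3 / 5 * a * ls ≤ 1 / 10 * ls := mul_le_mul_of_nonneg_right (by linarith) q3.le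
    have h2 : ζ * ls ≤ 1 / 10 * ls := mul_le_mul_of_nonneg_right (by linarith) q3.le
    have e : (1 + 3 / 5 * a) * ls = ls + 3 / 5 * a * ls := by ring
    linarith
  have hllls : ls ≤ ll := by
    have h2 : ζ * ls ≤ 3 / 5 * a * ls := mul_le_mul_of_nonneg_right (by linarith) q3.le
    have e : (1 + 3 / 5 * a) * ls = ls + 3 / 5 * a * ls := by ring
    linarith
  have hMR : (M : ℝ) * v ≤ Y := by exact_mod_cast r2
  have hMR2 : (Y : ℝ) < M * v + M := by exact_mod_cast r3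
  have f3' : M * ll ≤ 1 - 2 * (J * ls) := by
    have h1 : (M * ll) * D ≤ (1 - 2 * (J * ls)) * D := by
      have e : (M * ll) * D = M * v := by rw [hvD]; ring
      rw [e]
      linarith
    exact le_of_mul_le_mul_right h1 hD0
  have hMD : (M : ℝ) ≤ ζ / 4 * D := by
    rwa [div_le_iff₀ hD0] at r4
  have f3 : 1 - 2 * (J * ls) - ζ ≤ M * ll := by
    have h1 : (1 - 2 * (J * ls) - ζ) * D ≤ (M * ll) * D := by
      have e : (M * ll) * D = M * v := by rw [hvD]; ring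
      rw [e]
      have e2 : (1 - 2 * (J * ls) - ζ / 20) * (D : ℝ) = (1 - 2 * (J * ls) - ζ) * D + 19 / 20 * ζ * D := by
        ring
      have e3 : 19 / 20 * ζ * (D : ℝ) = ζ / 4 * D + 7 / 10 * ζ * D := by ring
      have e4 : 0 ≤ 7 / 10 * ζ * (D : ℝ) := by positivity
      linarith
    exact le_of_mul_le_mul_right h1 hD0
  -- g
  have hp2' : 2 ≤ p := by
    have h4 : (40 : ℝ) ≤ p := by
      have hD' : 40 * (K : ℝ) * (K + 1) ≤ D * (ε * ζ) := by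
        rwa [div_le_iff₀ (by positivity)] at hD
      have h3 : 40 * (K : ℝ) * (K + 1) ≤ p * ζ := by
        calc 40 * (K : ℝ) * (K + 1) ≤ D * (ε * ζ) := hD'
          _ = (ε * D) * ζ := by ring
          _ ≤ p * ζ := mul_le_mul_of_nonneg_right hp1 hζ0.le
      have h5 : (p : ℝ) * ζ ≤ p * 1 := mul_le_mul_of_nonneg_left (by linarith) (Nat.cast_nonneg _)
      have h6 : (1 : ℝ) ≤ K := by exact_mod_cast hK1
      have h7 : 40 * (1 : ℝ) * (1 + 0) ≤ 40 * (K : ℝ) * (K + 1) :=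
        mul_le_mul (by linarith) (by linarith) (by norm_num) (by linarith)
      linarith
    have : (2 : ℝ) ≤ p := by linarith
    exact_mod_cast this
  obtain ⟨g, hg⟩ : ∃ g : ℕ, g = (p - 1 + v - 1) / v := ⟨_, rfl⟩
  obtain ⟨g0, g2, g3, g4⟩ := nat_g p v (by omega) hp2'
  rw [← hg] at g0 g2 g3 g4
  have gR2 : (p : ℝ) ≤ g * v + 1 := by exact_mod_cast g2
  have gR4 : (g : ℝ) * v + 2 ≤ p + v := by exact_mod_cast g4
  have h1D : 1 ≤ ζ * D := by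
    have hD' : 40 * (K : ℝ) * (K + 1) ≤ D * (ε * ζ) := by
      rwa [div_le_iff₀ (by positivity)] at hD
    have h3 : (D : ℝ) * (ε * ζ) ≤ D * (1 * ζ) := by
      apply mul_le_mul_of_nonneg_left _ hD0.le
      exact mul_le_mul_of_nonneg_right (by linarith) hζ0.le
    have h6 : (1 : ℝ) ≤ K := by exact_mod_cast hK1
    have h7 : 40 * (1 : ℝ) * (1 + 0) ≤ 40 * (K : ℝ) * (K + 1) :=
      mul_le_mul (by linarith) (by linarith) (by norm_num) (by linarith)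
    linarith
  have f5 : c - ζ ≤ g * ll := by
    have h1 : (c - ζ) * D ≤ (g * ll) * D := by
      have e : (g * ll) * D = g * v := by rw [hvD]; ring
      rw [e]
      have e2 : (c - ζ) * (D : ℝ) = c * D - ζ * D := by ring
      linarith
    exact le_of_mul_le_mul_right h1 hD0
  have f5' : g * ll ≤ c + ζ := by
    have h1 : (g * ll) * D ≤ (c + ll) * D := by
      have e : (g * ll) * D = g * v := by rw [hvD]; ring
      rw [e]
      have e2 : (c + ll) * (D : ℝ) = c * D + ll * D := by ring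
      linarith
    have := le_of_mul_le_mul_right h1 hD0
    linarith
  obtain ⟨m, hm⟩ : ∃ m : ℝ, m = ls / (1 + 2 / 5 * a) := ⟨_, rfl⟩
  have hm' : ls = (1 + 2 / 5 * a) * m := by
    rw [hm]; field_simp
  obtain ⟨θ, hθ⟩ : ∃ θ : ℝ, θ = 1 - ((M : ℝ) + 2 * J - 1) * m := ⟨_, rfl⟩
  obtain ⟨u1, u2, u3, u4, u5, u6, u7, u8, u9⟩ := core ε η L a ζ c ls ll K J M g m θ hε hε1 hη hL ha0
    ha hζ0 hζ q3 (Nat.cast_nonneg _) (Nat.cast_nonneg _) (Nat.cast_nonneg _) hc1 hc2 q4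
    (by linarith) (by linarith) f3 f3' r5 r6 f5 f5' (by linarith) hm' hθ
  -- e
  obtain ⟨e, he⟩ : ∃ e : ℕ, e = (J * (v - w) + v - 1) / v := ⟨_, rfl⟩
  obtain ⟨e1, e2⟩ := ceil_div (J * (v - w)) v (by omega)
  rw [← he] at e1 e2
  have hel : (e : ℝ) * ll ≤ a ^ 2 + ll := by
    have h1 : (v : ℝ) * e + 1 ≤ J * (v - w) + v := by
      have : ((v * e + 1 : ℕ) : ℝ) ≤ ((J * (v - w) + v : ℕ) : ℝ) := by exact_mod_cast e2
      push_cast [Nat.cast_sub r7.le] at this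
      exact this
    have h2 : (e * ll) * D ≤ (J * (ll - ls) + ll) * D := by
      have e5 : (e * ll) * D = v * e := by rw [hvD]; ring
      have e6 : (J * (ll - ls) + ll) * (D : ℝ) = J * (v - w) + v := by rw [hvD, hwD]; ring
      rw [e5, e6]
      linarith
    have h3 := le_of_mul_le_mul_right h2 hD0
    have h4 : ll - ls ≤ 7 / 10 * a * ls := by
      have h5 : ζ * ls ≤ 1 / 10 * a * ls := mul_le_mul_of_nonneg_right (by linarith) q3.le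
      have e : (1 + 3 / 5 * a) * ls = ls + 3 / 5 * a * ls := by ring
      have e7 : 7 / 10 * a * ls = 3 / 5 * a * ls + 1 / 10 * a * ls := by ring
      linarith
    have h6 : J * (ll - ls) ≤ J * (7 / 10 * a * ls) :=
      mul_le_mul_of_nonneg_left h4 (Nat.cast_nonneg _)
    have h7 : J * (7 / 10 * a * ls) = 7 / 10 * a * (J * ls) := by ring
    have h8 : 7 / 10 * a * (J * ls) ≤ 7 / 10 * a * (6 / 5 * a) := by
      apply mul_le_mul_of_nonneg_left _ (by positivity)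
      linarith
    have h9 : 7 / 10 * a * (6 / 5 * a) = 42 / 50 * a ^ 2 := by ring
    have h10 : 0 ≤ a ^ 2 := sq_nonneg a
    linarith
  have hg1 : g ≤ K := by
    by_contra h
    push Not at h
    have h1 : K ≤ g - 1 := by omega
    have h2 : K * w ≤ (g - 1) * v := Nat.mul_le_mul h1 r7.le
    omega
  have hwK : (K - 1) * w + 2 ≤ p := by
    have h1 : (K - 1) * w = K * w - w := by rw [Nat.sub_mul, one_mul]
    have h2 : w ≤ K * w := Nat.le_mul_of_pos_left w hK1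
    omega
  have e1' : J * (v - w) ≤ e * v := by rw [mul_comm e v]; exact e1
  have q5b : K * ls ≤ c + ζ := by linarith
  subst hc
  exact ⟨w, J, M, v, g, e, hJ0, by omega, r7, hw1, hwK, g0, hg1, g2, g3, e1', by omega, by omega,
    ls, ll, m, θ, hls, hll, hm', hθ, q3, hll0, q6, hll1, u1, u2, u3, u4, u5, u6, u7, u8, hel, f2,
    by linarith, q4, q5b, r8, f3', f3, f5, r6⟩

end Pool.Agent.H39.HW.Sc.P0
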