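import Pool.Agent.H39.HW.SPar

set_option autoImplicit false
open Classical Finset

namespace Pool.Agent.H39.HW.Sc

open Pool.Agent.H39.HW

/-- bounds which use that `D` is large -/
theorem bigD (ε η L a ζ m θ ls : ℝ) (h t K B0 B D : ℕ) (δ : ℝ) (J : ℝ) (hε : 0 < ε)
    (hε1 : ε ≤ 1 / 10) (hη0 : 0 < η) (hη1 : η ≤ 1) (hL : 8 * 10 ^ 8 ≤ L) (ha0 : 0 < a) (ha1 : a ≤ 1)
    (hζ0 : 0 < ζ) (hζ1 : ζ ≤ 1) (hK1 : 1 ≤ K) (hD1 : 1 ≤ D)
    (hD : 10 ^ 12 * ((B0 : ℝ) + 1) * K * (K + 1) / (η * a * ε * ζ) ≤ D)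
    (hB : B ≤ B0) (ht : 10 ^ 9 * L ^ 2 * B0 / ε ≤ t)
    (hδ : δ = a / (10 ^ 10 * L * (2 * h * t + 2) ^ 2 * (B0 + 2) * (2 * h + 2)))
    (hθ1 : 99 / 100 * a ≤ θ) (hθ2 : θ ≤ 101 / 100 * a) (hm : ε / (2 * K) ≤ m)
    (hJ : 11 / 10 * a ≤ J * ls) :
    10 ^ 9 * ((B : ℝ) + 1) ≤ η * θ * m * D ∧ 10 ^ 9 * L ^ 2 * B ≤ ε * t ∧ 0 < δ ∧
    10 ^ 9 * L * (2 * h * t + 2) ^ 2 * (B + 2) * (2 * h + 2) * δ ≤ θ ∧
    θ * D + 2 * h * t * δ * D + 2 ≤ J * (ls * D) := by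
  have hD0 : (0 : ℝ) < D := by exact_mod_cast hD1
  have hK0 : (1 : ℝ) ≤ K := by exact_mod_cast hK1
  have hL0 : 0 < L := by linarith
  have hBB : (B : ℝ) ≤ B0 := by exact_mod_cast hB
  have hB00 : (0 : ℝ) ≤ B0 := Nat.cast_nonneg _
  have hB0' : (0 : ℝ) ≤ B := Nat.cast_nonneg _
  have hh0 : (0 : ℝ) ≤ h := Nat.cast_nonneg _
  have ht0 : (0 : ℝ) ≤ t := Nat.cast_nonneg _
  have hD' : 10 ^ 12 * ((B0 : ℝ) + 1) * K * (K + 1) ≤ D * (η * a * ε * ζ) := by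
    rwa [div_le_iff₀ (by positivity)] at hD
  have hD2 : 10 ^ 12 * ((B0 : ℝ) + 1) * K ≤ D * (η * a * ε) := by
    have h1 : D * (η * a * ε * ζ) ≤ D * (η * a * ε * 1) := by
      apply mul_le_mul_of_nonneg_left _ hD0.le
      exact mul_le_mul_of_nonneg_left hζ1 (by positivity)
    have h2 : 10 ^ 12 * ((B0 : ℝ) + 1) * K * 1 ≤ 10 ^ 12 * ((B0 : ℝ) + 1) * K * (K + 1) := by
      apply mul_le_mul_of_nonneg_left _ (by positivity)
      linarith
    linarith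
  have hδ0 : 0 < δ := by rw [hδ]; positivity
  have hδ' : 10 ^ 10 * L * (2 * h * t + 2) ^ 2 * (B0 + 2) * (2 * h + 2) * δ = a := by
    rw [hδ]; field_simp
  refine ⟨?_, ?_, hδ0, ?_, ?_⟩
  · have h1 : η * (99 / 100 * a) * (ε / (2 * K)) * D ≤ η * θ * m * D := by
      apply mul_le_mul_of_nonneg_right _ hD0.le
      apply mul_le_mul _ hm (by positivity) _
      · exact mul_le_mul_of_nonneg_left hθ1 hη0.le
      · have : 0 ≤ θ := le_trans (by positivity) hθ1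
        positivity
    have h2 : 10 ^ 9 * ((B0 : ℝ) + 1) ≤ η * (99 / 100 * a) * (ε / (2 * K)) * D := by
      have e : η * (99 / 100 * a) * (ε / (2 * K)) * D = 99 / 200 * (D * (η * a * ε)) / K := by
        field_simp
        ring
      rw [e, le_div_iff₀ (by linarith)]
      have : 0 ≤ ((B0 : ℝ) + 1) * K := by positivity
      linarith
    have h3 : 10 ^ 9 * ((B : ℝ) + 1) ≤ 10 ^ 9 * ((B0 : ℝ) + 1) := by linarith
    linarith
  · rw [div_le_iff₀ hε] at ht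
    have : 10 ^ 9 * L ^ 2 * (B : ℝ) ≤ 10 ^ 9 * L ^ 2 * B0 :=
      mul_le_mul_of_nonneg_left hBB (by positivity)
    linarith
  · have h1 : 10 ^ 9 * L * (2 * h * t + 2) ^ 2 * ((B : ℝ) + 2) * (2 * h + 2) * δ ≤
        10 ^ 9 * L * (2 * h * t + 2) ^ 2 * ((B0 : ℝ) + 2) * (2 * h + 2) * δ := by
      apply mul_le_mul_of_nonneg_right _ hδ0.le
      apply mul_le_mul_of_nonneg_right _ (by positivity)
      apply mul_le_mul_of_nonneg_left _ (by positivity)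
      linarith
    have h2 : 10 ^ 9 * L * (2 * h * t + 2) ^ 2 * ((B0 : ℝ) + 2) * (2 * h + 2) * δ = a / 10 := by
      rw [← hδ']; ring
    linarith
  · have h1 : (2 * (h : ℝ) * t + 2) * δ ≤ a / 10 ^ 10 := by
      rw [le_div_iff₀ (by positivity), ← hδ']
      have h3 : (1 : ℝ) ≤ L * (2 * h * t + 2) * (B0 + 2) * (2 * h + 2) := by
        have h4 : (1 : ℝ) ≤ 2 * h * t + 2 := by
          have : 0 ≤ 2 * (h : ℝ) * t := by positivity
          linarith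
        have h5 : (1 : ℝ) ≤ (B0 : ℝ) + 2 := by linarith
        have h6 : (1 : ℝ) ≤ 2 * (h : ℝ) + 2 := by linarith
        have h7 : (1 : ℝ) ≤ L * (2 * h * t + 2) := one_le_mul_of_one_le_of_one_le (by linarith) h4
        exact one_le_mul_of_one_le_of_one_le (one_le_mul_of_one_le_of_one_le h7 h5) h6
      have h8 : (2 * (h : ℝ) * t + 2) * δ * 10 ^ 10 * 1 ≤
          (2 * (h : ℝ) * t + 2) * δ * 10 ^ 10 * (L * (2 * h * t + 2) * (B0 + 2) * (2 * h + 2)) :=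
        mul_le_mul_of_nonneg_left h3 (by positivity)
      calc (2 * (h : ℝ) * t + 2) * δ * 10 ^ 10 = (2 * (h : ℝ) * t + 2) * δ * 10 ^ 10 * 1 := by ring
        _ ≤ _ := h8
        _ = _ := by ring
    have h2 : 2 * (h : ℝ) * t * δ ≤ a / 10 ^ 10 := by
      have : (2 * (h : ℝ) * t + 2) * δ = 2 * (h : ℝ) * t * δ + 2 * δ := by ring
      linarith
    have h3 : θ * D ≤ 101 / 100 * a * D := mul_le_mul_of_nonneg_right hθ2 hD0.le
    have h4 : 2 * (h : ℝ) * t * δ * D ≤ a / 10 ^ 10 * D := mul_le_mul_of_nonneg_right h2 hD0.le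
    have h5 : 11 / 10 * a * D ≤ J * (ls * D) := by
      have := mul_le_mul_of_nonneg_right hJ hD0.le
      calc 11 / 10 * a * D ≤ J * ls * D := this
        _ = J * (ls * D) := by ring
    have h6 : 10 ^ 12 ≤ a * D := by
      have h7 : D * (η * a * ε) ≤ D * (1 * a * 1) := by
        apply mul_le_mul_of_nonneg_left _ hD0.le
        apply mul_le_mul _ (by linarith) hε.le (by positivity)
        exact mul_le_mul_of_nonneg_right hη1 ha0.le
      have h8 : (10 ^ 12 : ℝ) * 1 * 1 ≤ 10 ^ 12 * ((B0 : ℝ) + 1) * K := by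
        apply mul_le_mul _ hK0 (by norm_num) (by positivity)
        linarith
      linarith
    have e1 : 101 / 100 * a * (D : ℝ) = 101 / 100 * (a * D) := by ring
    have e2 : a / 10 ^ 10 * (D : ℝ) = (a * D) / 10 ^ 10 := by ring
    have e3 : 11 / 10 * a * (D : ℝ) = 11 / 10 * (a * D) := by ring
    linarith

theorem t_PAR : S_PAR := by
  intro ε hε hε1
  obtain ⟨η, h, L, a, ζ, hη, hh, hL, hηL, hL8, ha0, ha, hζ0, hζ, hζ', hhL, hh1⟩ := consts ε hε hε1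
  obtain ⟨hη0, hη1, ha2, ha3, hζ1, haa, hζ2, haη, ha33⟩ := P0.c1 ε η L a ζ hε hε1 hη hL8 ha0 ha.le hζ'
  have hL0 : (0 : ℝ) < L := by linarith
  obtain ⟨K, hK⟩ : ∃ K : ℕ, K = ⌈10 / ζ⌉₊ := ⟨_, rfl⟩
  have hK1 : 10 / ζ ≤ K := by rw [hK]; exact Nat.le_ceil _
  have hK2 : 1 ≤ K := by
    have : (0 : ℝ) < K := lt_of_lt_of_le (by positivity) hK1
    have : 0 < K := by exact_mod_cast this
    omega
  have hKr : (1 : ℝ) ≤ K := by exact_mod_cast hK2
  obtain ⟨B0, hB0⟩ : ∃ B0 : ℕ, B0 = ⌈4 * (K : ℝ) / ε⌉₊ := ⟨_, rfl⟩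
  have hB01 : 4 * (K : ℝ) / ε ≤ B0 := by rw [hB0]; exact Nat.le_ceil _
  obtain ⟨t, ht⟩ : ∃ t : ℕ, t = ⌈10 ^ 9 * (L : ℝ) ^ 2 * B0 / ε⌉₊ + 1 := ⟨_, rfl⟩
  have ht1 : 10 ^ 9 * (L : ℝ) ^ 2 * B0 / ε ≤ t := by
    rw [ht]
    push_cast
    have := Nat.le_ceil (10 ^ 9 * (L : ℝ) ^ 2 * B0 / ε)
    linarith
  have ht0 : 1 ≤ t := by omega
  obtain ⟨δ, hδ⟩ : ∃ δ : ℝ,
    δ = a / (10 ^ 10 * L * (2 * h * t + 2) ^ 2 * (B0 + 2) * (2 * h + 2)) := ⟨_, rfl⟩
  have hδ0 : 0 < δ := by rw [hδ]; positivity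
  obtain ⟨D0, hD0⟩ : ∃ D0 : ℕ,
    D0 = ⌈10 ^ 12 * ((B0 : ℝ) + 1) * K * (K + 1) / (η * a * ε * ζ)⌉₊ + 1 := ⟨_, rfl⟩
  refine ⟨B0, 2 * h * t, δ, hδ0, D0, ?_⟩
  intro D hD p hp1 hp2
  have hD1 : 1 ≤ D := by omega
  have hDr : 10 ^ 12 * ((B0 : ℝ) + 1) * K * (K + 1) / (η * a * ε * ζ) ≤ D := by
    have h1 : 10 ^ 12 * ((B0 : ℝ) + 1) * K * (K + 1) / (η * a * ε * ζ) ≤ D0 := by
      rw [hD0]
      push_cast
      have := Nat.le_ceil (10 ^ 12 * ((B0 : ℝ) + 1) * K * (K + 1) / (η * a * ε * ζ))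
      linarith
    have h2 : (D0 : ℝ) ≤ D := by exact_mod_cast hD
    linarith
  have hDpos : (0 : ℝ) < D := by exact_mod_cast hD1
  have hηa : η * a ≤ 1 := by
    calc η * a ≤ 1 * 1 := mul_le_mul (by linarith) (by linarith) ha0.le (by norm_num)
      _ = 1 := by norm_num
  have hDr2 : 40 * (K : ℝ) * (K + 1) / (ε * ζ) ≤ D := by
    refine le_trans ?_ hDr
    rw [div_le_div_iff₀ (by positivity) (by positivity)]
    have h1 : (0 : ℝ) ≤ K * (K + 1) * (ε * ζ) := by positivity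
    have h2 : 40 * (K : ℝ) * (K + 1) * (η * a * ε * ζ) = 40 * (η * a) * (K * (K + 1) * (ε * ζ)) := by
      ring
    have h3 : 10 ^ 12 * ((B0 : ℝ) + 1) * K * (K + 1) * (ε * ζ) =
      10 ^ 12 * ((B0 : ℝ) + 1) * (K * (K + 1) * (ε * ζ)) := by ring
    rw [h2, h3]
    apply mul_le_mul_of_nonneg_right _ h1
    have : (0 : ℝ) ≤ B0 := Nat.cast_nonneg _
    linarith
  obtain ⟨w, J, M, v, g, e, a1, a2, a3, a4, a5, a6, a7, a8, a9, a10, a11, a12,
    ls, ll, m, θ, b1, b2, b3, b4, b5, b6, b7, b8, b9, b10, b11, b12, b13, b14, b15, b16, b17, b18,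
    b19, b20, b21, b22, b23, b24, b25, b26⟩ :=
    P0.choice ε η L a ζ K hε hε1 hη hL8 ha0 ha.le hζ0 hζ' hK1 hK2 D p hDr2 hD1 hp1 hp2
  have hc1 : ε ≤ (p : ℝ) / D := by
    rw [le_div_iff₀ hDpos]
    exact hp1
  have hc2 : (p : ℝ) / D ≤ 1 / 2 - ε := by
    rw [div_le_iff₀ hDpos]
    exact hp2
  obtain ⟨c0, c1, c2, c3, c4, c5, c6, c7, c8, c9, c10, c11, c12, c13, c14⟩ :=
    realfacts ε η L a ζ (p / D) ls ll m θ K J M g e h hε hε1 hη hL8 ha0 ha hζ0 hζ hζ'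
      (Nat.cast_nonneg _) hhL hh hc1 hc2 b5 b6 b7 b8 b9 b3 b10 (Nat.cast_nonneg _)
      (Nat.cast_nonneg _) (Nat.cast_nonneg _) (Nat.cast_nonneg _) b16 b17 b18 b19 b20 b21
      b24 b25 b26
  -- q
  obtain ⟨q, hq⟩ : ∃ q : ℕ, q = ⌊a / (150 * h * L * ll)⌋₊ := ⟨_, rfl⟩
  have hhr : (1 : ℝ) ≤ h := by exact_mod_cast hh1
  have hden : 0 < 150 * (h : ℝ) * L * ll := by positivity
  have hq1 : (q : ℝ) ≤ a / (150 * h * L * ll) := by
    rw [hq]; exact Nat.floor_le (by positivity)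
  have hq2 : a / (150 * h * L * ll) < q + 1 := by
    rw [hq]; exact Nat.lt_floor_add_one _
  have hq1' : (q : ℝ) * (150 * h * L * ll) ≤ a := by rwa [le_div_iff₀ hden] at hq1
  have hq2' : a < (q + 1) * (150 * h * L * ll) := by rwa [div_lt_iff₀ hden] at hq2
  have hqpos : 1 ≤ q := by
    rw [hq]
    apply Nat.le_floor
    rw [Nat.cast_one, le_div_iff₀ hden]
    have : 0 < (h : ℝ) * L * ll := by positivity
    linarith
  -- naturals
  have hKJ : 4 * J + 4 ≤ K := by exact_mod_cast c6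
  have hKM : 2 * K + 2 * (K - g) + 4 * J + 4 ≤ M := by
    have : ((2 * K + 2 * (K - g) + 4 * J + 4 : ℕ) : ℝ) ≤ (M : ℝ) := by
      push_cast [Nat.cast_sub a7]
      linarith
    exact_mod_cast this
  have hW : 8 * (L * q) + 8 * e + 8 ≤ K - g := by
    have h1 : ((L : ℝ) * q) * ll ≤ a * ε / 150000 := by
      have h2 : 150 * (h * ((L * q) * ll)) ≤ a := by
        have : 150 * (h * (((L : ℝ) * q) * ll)) = (q : ℝ) * (150 * h * L * ll) := by ring
        linarith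
      have h3 : 0 ≤ ((L : ℝ) * q) * ll := by positivity
      have h4 : 1000 * (((L : ℝ) * q) * ll) ≤ ε * h * (((L : ℝ) * q) * ll) :=
        mul_le_mul_of_nonneg_right hh h3
      have h5 : ε * (150 * (h * (((L : ℝ) * q) * ll))) ≤ ε * a := mul_le_mul_of_nonneg_left h2 hε.le
      have h6 : ε * (150 * (h * (((L : ℝ) * q) * ll))) = 150 * (ε * h * (((L : ℝ) * q) * ll)) := by ring
      linarith
    have h7 : (8 * ((L : ℝ) * q) + 8 * e + 8) * ll ≤ (K - g) * ll := by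
      have e1 : (8 * ((L : ℝ) * q) + 8 * e + 8) * ll = 8 * (((L : ℝ) * q) * ll) + 8 * (e * ll) + 8 * ll := by
        ring
      linarith
    have h8 := le_of_mul_le_mul_right h7 b6
    have : ((8 * (L * q) + 8 * e + 8 : ℕ) : ℝ) ≤ ((K - g : ℕ) : ℝ) := by
      push_cast [Nat.cast_sub a7]
      linarith
    exact_mod_cast this
  -- B ≤ B0
  have hB : 2 * K + 2 * J + M ≤ B0 := by
    have h1 : ε * M ≤ K := by
      have h2 : (w : ℝ) = ls * D := by rw [b1]; field_simp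
      have h3 : (M * ls) * D ≤ 1 * D := by
        have : (M * ls) * (D : ℝ) = M * w := by rw [h2]; ring
        linarith
      have h4 := le_of_mul_le_mul_right h3 hDpos
      have h5 : ε * M ≤ K * ls * M := by
        apply mul_le_mul_of_nonneg_right _ (Nat.cast_nonneg _)
        linarith
      have h6 : K * ls * M ≤ K * 1 := by
        have : K * ls * (M : ℝ) = K * (M * ls) := by ring
        rw [this]
        exact mul_le_mul_of_nonneg_left h4 (Nat.cast_nonneg _)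
      linarith
    have h7 : (4 * (J : ℝ)) + 4 ≤ K := by exact_mod_cast hKJ
    have h8 : ((2 * K + 2 * J + M : ℕ) : ℝ) ≤ B0 := by
      refine le_trans ?_ hB01
      rw [le_div_iff₀ hε]
      push_cast
      have h9 : (2 * (K : ℝ) + 2 * J) * ε ≤ (2 * (K : ℝ) + 2 * J) * (1 / 10) :=
        mul_le_mul_of_nonneg_left hε1 (by positivity)
      have e1 : (2 * (K : ℝ) + 2 * J + M) * ε = (2 * (K : ℝ) + 2 * J) * ε + ε * M := by ring
      linarith
    exact_mod_cast h8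
  obtain ⟨d1, d2, d3, d4, d5⟩ := bigD ε η L a ζ m θ ls h t K B0 (2 * K + 2 * J + M) D δ J hε hε1 hη0
    (by linarith) hL8 ha0 (by linarith) hζ0 (by linarith) hK2 hD1 hDr hB ht1 hδ c1 c2 c13 b18
  have hlsD : ls * D = w := by rw [b1]; field_simp
  rw [hlsD] at d5
  let x : Prm := ⟨D, p, K, J, M, g, e, h, L, q, t, w, v, m, ε, η, δ⟩
  have hxθ : x.θ = θ := b4.symm
  refine ⟨x, ?_, rfl, rfl, rfl, hB, le_refl _⟩
  have hq3 : 2 * (h : ℝ) * q * ll ≤ θ / (60 * L) := by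
    rw [le_div_iff₀ (by positivity)]
    have : 2 * (h : ℝ) * q * ll * (60 * L) = 120 / 150 * ((q : ℝ) * (150 * h * L * ll)) := by ring
    linarith
  have hq2'' : θ / (100 * L) ≤ 2 * (h : ℝ) * q * ll := by
    have h1 : a / (75 * L) ≤ 2 * h * q * ll + 2 * h * ll := by
      rw [div_le_iff₀ (by positivity)]
      have : (2 * (h : ℝ) * q * ll + 2 * h * ll) * (75 * L) = (q + 1) * (150 * h * L * ll) := by ring
      linarith
    have h2 : θ / (100 * L) ≤ 101 / 100 * a / (100 * L) :=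
      div_le_div_of_nonneg_right c2 (by positivity)
    have h3 : 101 / 100 * a / (100 * (L : ℝ)) = 101 / 10000 * (a / L) := by
      field_simp
      ring
    have h4 : a / (75 * (L : ℝ)) = 1 / 75 * (a / L) := by
      field_simp
    have h5 : a / (10 ^ 6 * (L : ℝ)) = 1 / 10 ^ 6 * (a / L) := by
      field_simp
    have h6 : 0 < a / (L : ℝ) := by positivity
    linarith
  exact {
    e0 := hε
    e1 := hε1
    c1 := hc1
    c2 := hc2
    n0 := hη0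
    n1 := by show 10 ^ 4 * η ≤ ε; rw [hη]; linarith
    h1 := hh
    L1 := hL
    Ln := hηL
    D1 := hD1
    J1 := a1
    q1 := hqpos
    t1 := ht0
    w1 := a2
    wv := a3
    pK := a4
    pK' := a5
    KJ := hKJ
    KM := hKM
    g0 := a6
    g1 := a7
    g2 := a8
    g3 := a9
    e2 := a10
    e3 := by show ((e : ℝ) + 1) * m ≤ η * x.θ; rw [hxθ]; exact c5
    N1 := a11
    N2 := a12
    m0 := b9
    t0 := by rw [hxθ]; exact c0
    th := by rw [hxθ]; exact c3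
    tL := by show 10 * (L : ℝ) * x.θ ≤ 1; rw [hxθ]; exact c4
    s1 := by
      show |(w : ℝ) / D - m - 2 / 5 * x.θ * m| ≤ η * x.θ * m
      rw [hxθ, ← b1]; exact b11
    s2 := by
      show |(v : ℝ) / D - m - x.θ * m| ≤ η * x.θ * m
      rw [hxθ, ← b2]; exact b12
    k1 := b13
    m1 := b14
    j1 := b15
    j2 := by
      show |((K : ℝ) - g) * (v / D) - 3 / 5 * (p / D) * x.θ| ≤ η * x.θ
      rw [hxθ, ← b2]; exact b16
    q2 := by
      show x.θ / (100 * L) ≤ 2 * h * q * ((v : ℝ) / D)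
      rw [hxθ, ← b2]; exact hq2''
    q3 := by
      show 2 * h * q * ((v : ℝ) / D) ≤ x.θ / (60 * L)
      rw [hxθ, ← b2]; exact hq3
    W1 := hW
    u1 := by
      show 10 ^ 9 * (L : ℝ) ^ 4 * m ≤ ε * x.θ
      rw [hxθ]; exact c8
    D2 := by
      show 10 ^ 9 * (((2 * K + 2 * J + M : ℕ) : ℝ) + 1) ≤ η * x.θ * m * D
      rw [hxθ]; exact d1
    t2 := d2
    d0 := hδ0
    d1 := by
      show 10 ^ 9 * (L : ℝ) * (2 * h * t + 2) ^ 2 * (((2 * K + 2 * J + M : ℕ) : ℝ) + 2) *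
        (2 * h + 2) * δ ≤ x.θ
      rw [hxθ]; exact d4
    xi := by
      show x.θ * D + 2 * h * t * δ * D + 2 ≤ J * w
      rw [hxθ]; exact d5 }

end Pool.Agent.H39.HW.Sc
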